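import Pool.Agent.H.MP_5e604b_co.Roots

/-!
Spectra, isomorphisms and connected components.
-/

namespace Pool.Agent.H.MP_5e604b_co

open Matrix

set_option linter.unusedSectionVars false

section iso

variable {V W : Type*} [Fintype V] [DecidableEq V] [Fintype W] [DecidableEq W]

lemma spectrum_iso {H : SimpleGraph V} {H' : SimpleGraph W} [DecidableRel H.Adj]
    [DecidableRel H'.Adj] (e : H ≃g H') :
    spectrum ℝ (H.adjMatrix ℝ) = spectrum ℝ (H'.adjMatrix ℝ) := by
  rw [← SimpleGraph.Iso.reindex_adjMatrix ℝ e]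
  exact (AlgEquiv.spectrum_eq (Matrix.reindexAlgEquiv ℝ ℝ e.toEquiv) (H.adjMatrix ℝ)).symm

lemma Sq_iso {H : SimpleGraph V} {H' : SimpleGraph W} [DecidableRel H.Adj]
    [DecidableRel H'.Adj] (e : H ≃g H') : Sq H = Sq H' := by
  unfold Sq
  rw [spectrum_iso e]

end iso

section comps

variable {V : Type*} [Fintype V] [DecidableEq V] {G : SimpleGraph V} [DecidableRel G.Adj]

lemma comp_nb (c : G.ConnectedComponent) [Fintype c.supp]
    [DecidableRel (G.induce c.supp).Adj] (x : c.supp) :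
    ((G.induce c.supp).neighborFinset x).map (Function.Embedding.subtype _)
      = G.neighborFinset x.val := by
  ext v
  rw [Finset.mem_map, SimpleGraph.mem_neighborFinset]
  constructor
  · rintro ⟨u, hu, rfl⟩
    rw [SimpleGraph.mem_neighborFinset] at hu
    exact hu
  · intro h
    refine ⟨⟨v, (c.mem_supp_congr_adj h).1 x.2⟩, ?_, rfl⟩
    rw [SimpleGraph.mem_neighborFinset]
    exact h

lemma comp_card (c : G.ConnectedComponent) [Fintype c.supp]
    [DecidableRel (G.induce c.supp).Adj] (x : c.supp) :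
    ((G.induce c.supp).neighborFinset x).card = (G.neighborFinset x.val).card := by
  rw [← comp_nb c x, Finset.card_map]

lemma comp_sum (c : G.ConnectedComponent) [Fintype c.supp]
    [DecidableRel (G.induce c.supp).Adj] (x : c.supp) (F : V → ℝ) :
    ∑ u ∈ (G.induce c.supp).neighborFinset x, F u.val = ∑ u ∈ G.neighborFinset x.val, F u := by
  rw [← comp_nb c x, Finset.sum_map]
  rfl

lemma comp_spec (c : G.ConnectedComponent) [Fintype c.supp]
    [DecidableRel (G.induce c.supp).Adj] {μ : ℝ}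
    (h : μ ∈ spectrum ℝ ((G.induce c.supp).adjMatrix ℝ)) : μ ∈ spectrum ℝ (G.adjMatrix ℝ) := by
  classical
  rw [mem_spec] at h ⊢
  obtain ⟨φ, h0, h⟩ := h
  refine ⟨fun v => if hv : v ∈ c.supp then φ ⟨v, hv⟩ else 0, ?_, ?_⟩
  · intro h'
    apply h0
    funext x
    have := congrFun h' x.val
    simp only [dif_pos x.2] at this
    exact this
  · funext v
    rw [SimpleGraph.adjMatrix_mulVec_apply, Pi.smul_apply, smul_eq_mul]
    by_cases hv : v ∈ c.supp
    · rw [dif_pos hv]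
      have h1 := congrFun h ⟨v, hv⟩
      rw [SimpleGraph.adjMatrix_mulVec_apply, Pi.smul_apply, smul_eq_mul] at h1
      rw [← h1]
      rw [← comp_sum c ⟨v, hv⟩ (fun v => if hv : v ∈ c.supp then φ ⟨v, hv⟩ else 0)]
      refine Finset.sum_congr rfl fun u _ => ?_
      rw [dif_pos u.2]
    · rw [dif_neg hv, mul_zero]
      refine Finset.sum_eq_zero fun u hu => ?_
      rw [SimpleGraph.mem_neighborFinset] at hu
      rw [dif_neg (fun h => hv ((c.mem_supp_congr_adj hu).2 h))]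

lemma spec_comp [∀ c : G.ConnectedComponent, Fintype c.supp]
    [∀ c : G.ConnectedComponent, DecidableRel (G.induce c.supp).Adj] {μ : ℝ}
    (h : μ ∈ spectrum ℝ (G.adjMatrix ℝ)) :
    ∃ c : G.ConnectedComponent, μ ∈ spectrum ℝ ((G.induce c.supp).adjMatrix ℝ) := by
  classical
  rw [mem_spec] at h
  obtain ⟨φ, h0, h⟩ := h
  obtain ⟨x, hx⟩ : ∃ x, φ x ≠ 0 := by
    by_contra hcon
    push Not at hcon
    exact h0 (funext hcon)
  refine ⟨G.connectedComponentMk x, ?_⟩
  rw [mem_spec]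
  refine ⟨fun v => φ v.val, ?_, ?_⟩
  · intro h'
    exact hx (congrFun h' ⟨x, rfl⟩)
  · funext v
    have h1 := congrFun h v.val
    rw [SimpleGraph.adjMatrix_mulVec_apply, Pi.smul_apply, smul_eq_mul] at h1 ⊢
    rw [comp_sum _ v φ, h1]

end comps

section counting

variable {V : Type*} [Fintype V] [DecidableEq V] {G : SimpleGraph V} [DecidableRel G.Adj]

lemma spec_finite (G : SimpleGraph V) [DecidableRel G.Adj] :
    (spectrum ℝ (G.adjMatrix ℝ)).Finite := by
  rw [(isHermitian_adj G).spectrum_real_eq_range_eigenvalues]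
  exact Set.finite_range _

lemma counts {col : V → Bool} (hprop : ∀ v w, G.Adj v w → col v ≠ col w) :
    ∃ m : ℕ,
      ((0 : ℝ) ∈ Sq G ∧ (spectrum ℝ (G.adjMatrix ℝ)).ncard = 2 * m + 1 ∧ (Sq G).ncard = m + 1) ∨
      ((0 : ℝ) ∉ Sq G ∧ (spectrum ℝ (G.adjMatrix ℝ)).ncard = 2 * m ∧ (Sq G).ncard = m) := by
  set S := spectrum ℝ (G.adjMatrix ℝ) with hS
  have hfin : S.Finite := spec_finite G
  have hneg : ∀ μ ∈ S, -μ ∈ S := fun μ hμ => neg_mem_spec hprop hμ
  let P : Set ℝ := {μ | μ ∈ S ∧ 0 < μ}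
  have hP : P.Finite := hfin.subset fun μ h => h.1
  have hN : (Neg.neg '' P).Finite := hP.image _
  have hcN : (Neg.neg '' P).ncard = P.ncard := Set.ncard_image_of_injective P neg_injective
  have hdis : Disjoint P (Neg.neg '' P) := by
    rw [Set.disjoint_left]
    rintro μ ⟨-, h1⟩ ⟨ν, ⟨-, h2⟩, rfl⟩
    linarith
  have hcU : (P ∪ Neg.neg '' P).ncard = 2 * P.ncard := by
    rw [Set.ncard_union_eq hdis hP hN, hcN]; ring
  have hsqP : ((fun μ : ℝ => μ ^ 2) '' P).ncard = P.ncard := by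
    refine Set.InjOn.ncard_image ?_
    rintro a ⟨-, ha⟩ b ⟨-, hb⟩ hab
    have : a ^ 2 = b ^ 2 := hab
    exact (pow_left_inj₀ ha.le hb.le two_ne_zero).1 this
  have h0 : (0 : ℝ) ∈ Sq G ↔ (0 : ℝ) ∈ S := by
    constructor
    · rintro ⟨μ, hμ, h⟩
      rw [pow_eq_zero_iff two_ne_zero] at h
      rwa [h] at hμ
    · intro h
      exact ⟨0, h, by norm_num⟩
  refine ⟨P.ncard, ?_⟩
  by_cases hz : (0 : ℝ) ∈ S
  · left
    have e1 : S = insert 0 (P ∪ Neg.neg '' P) := by
      ext μ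
      simp only [Set.mem_insert_iff, Set.mem_union]
      constructor
      · intro hμ
        rcases lt_trichotomy μ 0 with h | h | h
        · exact Or.inr (Or.inr ⟨-μ, ⟨hneg μ hμ, by linarith⟩, neg_neg μ⟩)
        · exact Or.inl h
        · exact Or.inr (Or.inl ⟨hμ, h⟩)
      · rintro (h | h | ⟨ν, hν, rfl⟩)
        · rw [h]; exact hz
        · exact h.1
        · exact hneg _ hν.1
    have e2 : Sq G = insert 0 ((fun μ : ℝ => μ ^ 2) '' P) := by
      ext t
      simp only [Set.mem_insert_iff]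
      constructor
      · rintro ⟨μ, hμ, rfl⟩
        rcases lt_trichotomy μ 0 with h | h | h
        · exact Or.inr ⟨-μ, ⟨hneg μ hμ, by linarith⟩, neg_sq μ⟩
        · left; rw [h]; norm_num
        · exact Or.inr ⟨μ, ⟨hμ, h⟩, rfl⟩
      · rintro (h | ⟨ν, hν, rfl⟩)
        · rw [h]; exact h0.2 hz
        · exact ⟨ν, hν.1, rfl⟩
    refine ⟨h0.2 hz, ?_, ?_⟩
    · rw [e1, Set.ncard_insert_of_notMem _ (hP.union hN), hcU]
      rintro (h | ⟨ν, hν, h⟩)
      · exact lt_irrefl _ h.2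
      · have := hν.2
        linarith
    · rw [e2, Set.ncard_insert_of_notMem _ (hP.image _), hsqP]
      rintro ⟨ν, hν, h⟩
      have h1 : ν ^ 2 = 0 := h
      rw [pow_eq_zero_iff two_ne_zero] at h1
      have := hν.2
      linarith
  · right
    have e1 : S = P ∪ Neg.neg '' P := by
      ext μ
      simp only [Set.mem_union]
      constructor
      · intro hμ
        rcases lt_trichotomy μ 0 with h | h | h
        · exact Or.inr ⟨-μ, ⟨hneg μ hμ, by linarith⟩, neg_neg μ⟩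
        · rw [h] at hμ; exact absurd hμ hz
        · exact Or.inl ⟨hμ, h⟩
      · rintro (h | ⟨ν, hν, rfl⟩)
        · exact h.1
        · exact hneg _ hν.1
    have e2 : Sq G = (fun μ : ℝ => μ ^ 2) '' P := by
      ext t
      constructor
      · rintro ⟨μ, hμ, rfl⟩
        rcases lt_trichotomy μ 0 with h | h | h
        · exact ⟨-μ, ⟨hneg μ hμ, by linarith⟩, neg_sq μ⟩
        · rw [h] at hμ; exact absurd hμ hz
        · exact ⟨μ, ⟨hμ, h⟩, rfl⟩
      · rintro ⟨ν, hν, rfl⟩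
        exact ⟨ν, hν.1, rfl⟩
    refine ⟨fun h => hz (h0.1 h), ?_, ?_⟩
    · rw [e1, hcU]
    · rw [e2, hsqP]

theorem five_iff {col : V → Bool} (hprop : ∀ v w, G.Adj v w → col v ≠ col w) :
    (spectrum ℝ (G.adjMatrix ℝ)).ncard = 5 ↔ (0 : ℝ) ∈ Sq G ∧ (Sq G).ncard = 3 := by
  obtain ⟨m, ⟨h0, h1, h2⟩ | ⟨h0, h1, h2⟩⟩ := counts hprop
  · rw [h1, h2]
    constructor
    · intro h; exact ⟨h0, by omega⟩
    · rintro ⟨-, h⟩; omega
  · rw [h1, h2]
    constructor
    · intro h; omega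
    · rintro ⟨h, -⟩; exact absurd h h0

theorem six_iff {col : V → Bool} (hprop : ∀ v w, G.Adj v w → col v ≠ col w) :
    (spectrum ℝ (G.adjMatrix ℝ)).ncard = 6 ↔ (0 : ℝ) ∉ Sq G ∧ (Sq G).ncard = 3 := by
  obtain ⟨m, ⟨h0, h1, h2⟩ | ⟨h0, h1, h2⟩⟩ := counts hprop
  · rw [h1, h2]
    constructor
    · intro h; omega
    · rintro ⟨h, -⟩; exact absurd h0 h
  · rw [h1, h2]
    constructor
    · intro h; exact ⟨h0, by omega⟩
    · rintro ⟨-, h⟩; omega

end counting

end Pool.Agent.H.MP_5e604b_co
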