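import Mathlib

/-!
LCF notation for cubic Hamiltonian graphs.
-/

namespace Pool.Agent.H.MP_5e604b_co

/-- The graph with LCF code `L` on the vertices `0, …, N - 1` (arithmetic modulo `N`): vertex `i`
is joined to `i + 1` and to `i + L[i mod |L|]`. -/
def lcf (N : ℕ) (L : List ℤ) : SimpleGraph (Fin N) :=
  SimpleGraph.fromRel fun i j =>
    (j.val : ℤ) ≡ i.val + 1 [ZMOD N] ∨ (j.val : ℤ) ≡ i.val + L.getD (i.val % L.length) 0 [ZMOD N]

instance (N : ℕ) (L : List ℤ) : DecidableRel (lcf N L).Adj := fun i j =>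
  inferInstanceAs (Decidable (i ≠ j ∧
    (((j.val : ℤ) ≡ i.val + 1 [ZMOD N] ∨
        (j.val : ℤ) ≡ i.val + L.getD (i.val % L.length) 0 [ZMOD N]) ∨
      ((i.val : ℤ) ≡ j.val + 1 [ZMOD N] ∨
        (i.val : ℤ) ≡ j.val + L.getD (j.val % L.length) 0 [ZMOD N]))))

end Pool.Agent.H.MP_5e604b_co
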