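import Pool.Agent.H.MP_5e604b_co.Final

/-!
The thirteen graphs are pairwise non-isomorphic.
-/

namespace Pool.Agent.H.MP_5e604b_co

set_option linter.unusedSectionVars false

section iso

variable {V W : Type*} [Fintype V] [DecidableEq V] [Fintype W] [DecidableEq W]
variable {H : SimpleGraph V} {H' : SimpleGraph W} [DecidableRel H.Adj] [DecidableRel H'.Adj]

lemma nb_iso (e : H ≃g H') (x : V) :
    (H.neighborFinset x).map e.toEquiv.toEmbedding = H'.neighborFinset (e x) := by
  ext w
  rw [Finset.mem_map, SimpleGraph.mem_neighborFinset]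
  constructor
  · rintro ⟨v, hv, rfl⟩
    rw [SimpleGraph.mem_neighborFinset] at hv
    exact e.map_rel_iff.2 hv
  · intro h
    refine ⟨e.symm w, ?_, e.apply_symm_apply w⟩
    rw [SimpleGraph.mem_neighborFinset, ← e.map_rel_iff]
    rwa [e.apply_symm_apply]

lemma Mg_iso (e : H ≃g H') (x y : V) : Mg H' (e x) (e y) = Mg H x y := by
  unfold Mg
  rw [← nb_iso, ← nb_iso, ← Finset.map_inter, Finset.card_map]

/-- number of walks of length three -/
def W3 (H : SimpleGraph V) [DecidableRel H.Adj] (x y : V) : ℕ :=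
  ∑ a ∈ H.neighborFinset x, Mg H a y

lemma W3_iso (e : H ≃g H') (x y : V) : W3 H' (e x) (e y) = W3 H x y := by
  unfold W3
  rw [← nb_iso, Finset.sum_map]
  exact Finset.sum_congr rfl fun a _ => Mg_iso e a y

lemma Wg_iso (e : H ≃g H') (x y : V) : Wg H' (e x) (e y) = Wg H x y := by
  unfold Wg
  rw [← nb_iso, ← nb_iso, Finset.sum_map]
  refine Finset.sum_congr rfl fun a _ => ?_
  rw [Finset.sum_map]
  exact Finset.sum_congr rfl fun b _ => Mg_iso e a b

end iso

lemma W3_lcf {c : ℕ × List ℤ} (hc : c ∈ codes) (x y : Fin c.1) :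
    W3 (lcf c.1 c.2) x y = ((nbl (toTgt c) x.val).map fun a => Ml (toTgt c) a y.val).sum := by
  unfold W3
  rw [← sum_nb hc (fun a => Ml (toTgt c) a y.val) x]
  exact Finset.sum_congr rfl fun v _ => Mg_lcf hc v y

/-- some vertex of `tg` is joined to each vertex by a walk of length three or four -/
def near (tg : Tgt) (x y : ℕ) : Bool :=
  !(Nat.beq (((nbl tg x).map fun a => Ml tg a y).sum + Wl tg x y) 0)

lemma mate_near : ∀ y : Fin 20, near (toTgt (code 9)) 0 y.val = true := by
  decide +kernel

lemma desargues_far : ∀ x : Fin 20, ∃ y : Fin 20, near (toTgt (code 8)) x.val y.val = false := by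
  decide +kernel

lemma desargues_ne (e : lcf (code 9).1 (code 9).2 ≃g lcf (code 8).1 (code 8).2) : False := by
  have h8 : code 8 ∈ codes := by decide
  have h9 : code 9 ∈ codes := by decide
  let x : Fin (code 9).1 := ⟨0, by decide⟩
  obtain ⟨y, hy⟩ := desargues_far (e x)
  have h1 := mate_near (e.symm y)
  unfold near at h1 hy
  have k1 := W3_iso e x (e.symm y)
  have k2 := Wg_iso e x (e.symm y)
  rw [W3_lcf h8, W3_lcf h9] at k1
  rw [Wg_lcf h8, Wg_lcf h9] at k2
  rw [e.apply_symm_apply] at k1 k2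
  rw [Bool.not_eq_false'] at hy
  rw [Nat.beq_eq] at hy
  rw [k1, k2] at hy
  have h2 : Nat.beq (((nbl (toTgt (code 9)) 0).map fun a =>
      Ml (toTgt (code 9)) a (e.symm y).val).sum + Wl (toTgt (code 9)) 0 (e.symm y).val) 0 = true := by
    rw [Nat.beq_eq]
    exact hy
  rw [h2] at h1
  exact absurd h1 (by decide)

lemma code_sep : ∀ i j : Fin 13, (code i).1 = (code j).1 → U i = U j →
    i = j ∨ (i = 8 ∧ j = 9) ∨ (i = 9 ∧ j = 8) := by
  decide +kernel

theorem code_ne {i j : Fin 13} (hij : i ≠ j)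
    (e : lcf (code i).1 (code i).2 ≃g lcf (code j).1 (code j).2) : False := by
  have h1 : (code i).1 = (code j).1 := by
    have := Fintype.card_congr e.toEquiv
    rwa [Fintype.card_fin, Fintype.card_fin] at this
  have h2 : U i = U j := by
    have := Sq_iso e
    rw [Sq_code, Sq_code] at this
    exact Finset.coe_injective ((Set.image_injective.2 val_inj) this)
  rcases code_sep i j h1 h2 with h | ⟨rfl, rfl⟩ | ⟨rfl, rfl⟩
  · exact hij h
  · exact desargues_ne e.symm
  · exact desargues_ne e

theorem codes_pairwise :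
    ((List.finRange 13).map code).Pairwise
      fun l l' => IsEmpty (lcf l.1 l.2 ≃g lcf l'.1 l'.2) := by
  rw [List.pairwise_map]
  exact (List.nodup_finRange 13).imp fun hij => ⟨fun e => code_ne hij e⟩

end Pool.Agent.H.MP_5e604b_co
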