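import Pool.Agent.H.MP_5e604b_co.Defs

/-!
A certificate checker for the classification of small cubic bipartite graphs, with its
soundness proof.
-/

namespace Pool.Agent.H.MP_5e604b_co

/-- A block: three point labels. -/
abbrev T := ℕ × ℕ × ℕ

def has (i : ℕ) (t : T) : Bool := Nat.beq t.1 i || (Nat.beq t.2.1 i || Nat.beq t.2.2 i)

def deg (bl : List T) (i : ℕ) : ℕ := (bl.filter (has i)).length

def b2n (b : Bool) : ℕ := cond b 1 0

def inter (t t' : T) : ℕ := b2n (has t.1 t') + (b2n (has t.2.1 t') + b2n (has t.2.2 t'))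

def Mst (bl : List T) (i j : ℕ) : ℕ := ((bl.filter (has i)).map fun t => b2n (has j t)).sum

def Wst (bl : List T) (i j : ℕ) : ℕ :=
  ((bl.filter (has i)).map fun t => ((bl.filter (has j)).map fun t' => inter t t').sum).sum

def ngb (ng i k : ℕ) : Bool := Nat.blt k 32 && Nat.testBit ng (32 * i + k)

def unk (mmax : ℕ) (bl : List T) (ng i k : ℕ) : Bool :=
  !(Nat.beq k i) && (Nat.blt (deg bl k) 3 && (Nat.blt (Mst bl i k) mmax && !(ngb ng i k)))

def pairs (mmax : ℕ) (bl : List T) (ng : ℕ) : List ℕ → List (ℕ × ℕ)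
  | [] => []
  | k :: ks => ((ks.filter fun l => Nat.blt (Mst bl k l) mmax && !(ngb ng k l)).map fun l => (k, l))
      ++ pairs mmax bl ng ks

/-- `m` is an admissible number of points (`nmax = 0` means no bound). -/
def okn (nmax m : ℕ) : Bool := Nat.beq nmax 0 || Nat.ble m nmax

def mkids (nmax mmax : ℕ) (bl : List T) (u ng i : ℕ) : List (List T × ℕ × ℕ) :=
  ((pairs mmax bl ng ((List.range u).filter (unk mmax bl ng i))).map
      fun kl => ((i, kl.1, kl.2) :: bl, u, ng)) ++
    ((cond (okn nmax (u + 1)) (((List.range u).filter (unk mmax bl ng i)).map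
        fun k => ((i, k, u) :: bl, u + 1, ng)) []) ++
      (cond (okn nmax (u + 2)) [((i, u, u + 1) :: bl, u + 2, ng)] []))

def pkids (nmax mmax : ℕ) (bl : List T) (u ng i k : ℕ) : List (List T × ℕ × ℕ) :=
  (((List.range u).filter (fun l => unk mmax bl ng i l && unk mmax bl ng k l)).map
      fun l => ((i, k, l) :: bl, u, ng)) ++
    ((cond (okn nmax (u + 1)) [((i, k, u) :: bl, u + 1, ng)] []) ++
      [(bl, u, ng ||| 2 ^ (32 * i + k) ||| 2 ^ (32 * k + i))])

def takeN : ℕ → ℕ → List ℕ × ℕ
  | 0, c => ([], c)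
  | m + 1, c => ((c % 64) :: (takeN m (c / 64)).1, (takeN m (c / 64)).2)

/-- Incidence between the vertex codes `a` (a label) and `b` (a block). -/
def incAB (bl : List T) (u : ℕ) (a b : ℕ) : Bool :=
  Nat.blt a u && (Nat.ble 32 b && has a (bl.getD (b - 32) (64, 64, 64)))

def incCode (bl : List T) (u : ℕ) (a b : ℕ) : Bool := incAB bl u a b || incAB bl u b a

/-- A target graph: number of vertices and shifts reduced modulo it. -/
structure Tgt where
  N : ℕ
  L : List ℕ

def nxt (N y : ℕ) : ℕ := (y + 1) % N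

def cho (tg : Tgt) (y : ℕ) : ℕ := (y + tg.L.getD (y % tg.L.length) 0) % tg.N

def leafOK (tg : Tgt) (bl : List T) (u : ℕ) (rho : List ℕ) : Bool :=
  Nat.ble u 32 && (Nat.beq rho.length tg.N && (
  ((List.range tg.N).all fun y =>
    incCode bl u (rho.getD y 0) (rho.getD (nxt tg.N y) 0) &&
    incCode bl u (rho.getD y 0) (rho.getD (cho tg y) 0)) &&
  decide rho.Nodup))

def run (nmax mmax nargs : ℕ) (bad : List T → ℕ → List ℕ → Bool) (tgts : List Tgt) :
    ℕ → List T → ℕ → ℕ → ℕ → Option ℕ
  | 0, _, _, _, _ => none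
  | k + 1, bl, u, ng, c =>
    match c % 64 with
    | 0 => cond (bad bl u (takeN nargs (c / 64)).1) (some (takeN nargs (c / 64)).2) none
    | 1 => cond (Nat.blt ((c / 64) % 64) u && Nat.blt (deg bl ((c / 64) % 64)) 3)
        ((mkids nmax mmax bl u ng ((c / 64) % 64)).foldl (fun acc s =>
          acc.bind fun c' => run nmax mmax nargs bad tgts k s.1 s.2.1 s.2.2 c')
          (some (c / 64 / 64)))
        none
    | 2 =>
      cond (Nat.blt ((c / 64) % 64) tgts.length &&
          leafOK (tgts.getD ((c / 64) % 64) ⟨0, []⟩) bl u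
          (takeN (tgts.getD ((c / 64) % 64) ⟨0, []⟩).N (c / 64 / 64)).1)
        (some (takeN (tgts.getD ((c / 64) % 64) ⟨0, []⟩).N (c / 64 / 64)).2) none
    | 3 => cond (Nat.blt ((c / 64) % 64) u && (Nat.blt ((c / 64 / 64) % 64) u &&
          (Nat.ble u 32 && !(Nat.beq ((c / 64) % 64) ((c / 64 / 64) % 64)))))
        ((pkids nmax mmax bl u ng ((c / 64) % 64) ((c / 64 / 64) % 64)).foldl (fun acc s =>
          acc.bind fun c' => run nmax mmax nargs bad tgts k s.1 s.2.1 s.2.2 c')
          (some (c / 64 / 64 / 64)))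
        none
    | _ => none

/-! ### Basic lemmas on labels -/

lemma has_iff (i : ℕ) (t : T) : has i t = true ↔ i = t.1 ∨ i = t.2.1 ∨ i = t.2.2 := by
  unfold has
  rw [Bool.or_eq_true, Bool.or_eq_true, Nat.beq_eq, Nat.beq_eq, Nat.beq_eq]
  constructor <;> (rintro (h | h | h) <;> simp [h])

/-! ### Realizations -/

section real

set_option linter.unusedSectionVars false

variable {V : Type*} [Fintype V] [DecidableEq V] (H : SimpleGraph V) [DecidableRel H.Adj]

/-- the vertex `v` realizes the block `t` -/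
def Rel (u : ℕ) (f : ℕ → V) (v : V) (t : T) : Prop :=
  (t.1 < u ∧ t.2.1 < u ∧ t.2.2 < u) ∧ (t.1 ≠ t.2.1 ∧ t.1 ≠ t.2.2 ∧ t.2.1 ≠ t.2.2) ∧
    H.neighborFinset v = {f t.1, f t.2.1, f t.2.2}

/-- A partial labelling of the graph by the state `(bl, u, ng)`. -/
structure IsReal (col : V → Bool) (bl : List T) (u ng : ℕ) (f : ℕ → V) (zl : List V) : Prop where
  col : ∀ i < u, col (f i) = false
  inj : ∀ i < u, ∀ j < u, f i = f j → i = j
  nodup : zl.Nodup
  blk : List.Forall₂ (Rel H u f) zl bl
  ng : ∀ i k, ngb ng i k = true → i < u ∧ k < u ∧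
    ∀ v, f i ∈ H.neighborFinset v → f k ∈ H.neighborFinset v → v ∈ zl

variable {H}
variable {col : V → Bool} {bl : List T} {u ng : ℕ} {f : ℕ → V} {zl : List V}

lemma Rel.has_iff {v : V} {t : T} (h : Rel H u f v t) (hinj : ∀ i < u, ∀ j < u, f i = f j → i = j)
    {i : ℕ} (hi : i < u) : has i t = true ↔ f i ∈ H.neighborFinset v := by
  obtain ⟨⟨h1, h2, h3⟩, -, h⟩ := h
  rw [h, MP_5e604b_co.has_iff]
  simp only [Finset.mem_insert, Finset.mem_singleton]
  constructor
  · rintro (rfl | rfl | rfl) <;> simp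
  · rintro (h | h | h)
    · exact Or.inl (hinj _ hi _ h1 h)
    · exact Or.inr (Or.inl (hinj _ hi _ h2 h))
    · exact Or.inr (Or.inr (hinj _ hi _ h3 h))

/-- Sums over the listed blocks through a point, as list sums over the state. -/
lemma sum_list {F : V → ℕ} {G : T → ℕ} {i : ℕ} {zl : List V} {bl : List T}
    (h : List.Forall₂ (fun v t => (has i t = true ↔ f i ∈ H.neighborFinset v) ∧ F v = G t) zl bl) :
    ((bl.filter (has i)).map G).sum
      = ((zl.filter (fun v => f i ∈ H.neighborFinset v)).map F).sum := by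
  induction h with
  | nil => simp
  | @cons v t zl bl hvt _ ih =>
    by_cases hh : has i t = true
    · have := hvt.1.1 hh
      rw [List.filter_cons_of_pos hh, List.filter_cons_of_pos (by simpa using this)]
      simp [ih, hvt.2]
    · have : ¬ f i ∈ H.neighborFinset v := fun h => hh (hvt.1.2 h)
      rw [List.filter_cons_of_neg hh, List.filter_cons_of_neg (by simpa using this)]
      exact ih

lemma sum_finset {F : V → ℕ} {x : V} {zl : List V} (hn : zl.Nodup) :
    ((zl.filter (fun v => x ∈ H.neighborFinset v)).map F).sum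
      = ∑ v ∈ H.neighborFinset x ∩ zl.toFinset, F v := by
  rw [← List.sum_toFinset F (hn.filter _)]
  apply Finset.sum_congr _ (fun _ _ => rfl)
  ext v
  simp only [List.mem_toFinset, List.mem_filter, decide_eq_true_eq, Finset.mem_inter,
    SimpleGraph.mem_neighborFinset, H.adj_comm]
  tauto

/-- number of common neighbours -/
def Mg (H : SimpleGraph V) [DecidableRel H.Adj] (x y : V) : ℕ :=
  (H.neighborFinset x ∩ H.neighborFinset y).card

/-- number of walks of length four -/
def Wg (H : SimpleGraph V) [DecidableRel H.Adj] (x y : V) : ℕ :=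
  ∑ v ∈ H.neighborFinset x, ∑ w ∈ H.neighborFinset y, Mg H v w

lemma Mg_comm (x y : V) : Mg H x y = Mg H y x := by
  unfold Mg; rw [Finset.inter_comm]

lemma b2n_eq (b : Bool) : b2n b = if b = true then 1 else 0 := by
  cases b <;> rfl

lemma Mg_eq_sum (x y : V) :
    Mg H x y = ∑ v ∈ H.neighborFinset x, if y ∈ H.neighborFinset v then 1 else 0 := by
  unfold Mg
  rw [← Finset.sum_filter, Finset.sum_const, smul_eq_mul, mul_one]
  congr 1
  ext v
  simp only [Finset.mem_inter, Finset.mem_filter, SimpleGraph.mem_neighborFinset, H.adj_comm]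

lemma IsReal.forall₂ (hR : IsReal H col bl u ng f zl) {F : V → ℕ} {G : T → ℕ} {i : ℕ} (hi : i < u)
    (hFG : ∀ v t, Rel H u f v t → F v = G t) :
    List.Forall₂ (fun v t => (has i t = true ↔ f i ∈ H.neighborFinset v) ∧ F v = G t) zl bl :=
  hR.blk.imp fun v t h => ⟨h.has_iff hR.inj hi, hFG v t h⟩

lemma IsReal.sum_eq (hR : IsReal H col bl u ng f zl) {F : V → ℕ} {G : T → ℕ} {i : ℕ} (hi : i < u)
    (hFG : ∀ v t, Rel H u f v t → F v = G t) :
    ((bl.filter (has i)).map G).sum = ∑ v ∈ H.neighborFinset (f i) ∩ zl.toFinset, F v := by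
  rw [sum_list (hR.forall₂ hi hFG), sum_finset hR.nodup]

lemma IsReal.deg_eq (hR : IsReal H col bl u ng f zl) {i : ℕ} (hi : i < u) :
    deg bl i = (H.neighborFinset (f i) ∩ zl.toFinset).card := by
  have := hR.sum_eq (F := fun _ => 1) (G := fun _ => 1) hi (fun _ _ _ => rfl)
  simp only [List.map_const', List.sum_replicate, smul_eq_mul, mul_one, Finset.sum_const] at this
  exact this

lemma IsReal.Mst_eq (hR : IsReal H col bl u ng f zl) {i j : ℕ} (hi : i < u) (hj : j < u) :
    Mst bl i j = ∑ v ∈ H.neighborFinset (f i) ∩ zl.toFinset,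
      if f j ∈ H.neighborFinset v then 1 else 0 := by
  apply hR.sum_eq hi
  intro v t h
  rw [b2n_eq]
  by_cases hh : has j t = true
  · rw [if_pos hh, if_pos ((h.has_iff hR.inj hj).1 hh)]
  · rw [if_neg hh, if_neg (fun h' => hh ((h.has_iff hR.inj hj).2 h'))]

lemma IsReal.inter_eq (hR : IsReal H col bl u ng f zl) {v w : V} {t t' : T} (h : Rel H u f v t)
    (h' : Rel H u f w t') : inter t t' = Mg H v w := by
  have hinj := hR.inj
  obtain ⟨⟨h1, h2, h3⟩, ⟨n1, n2, n3⟩, hN⟩ := h
  unfold inter Mg
  have hf : H.neighborFinset v ∩ H.neighborFinset w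
      = (H.neighborFinset v).filter (fun x => x ∈ H.neighborFinset w) := by
    ext x; simp
  rw [hf, Finset.card_filter, hN]
  rw [Finset.sum_insert, Finset.sum_insert, Finset.sum_singleton]
  · have key : ∀ {i : ℕ}, i < u → b2n (has i t') = if f i ∈ H.neighborFinset w then 1 else 0 := by
      intro i hi
      rw [b2n_eq]
      by_cases hh : has i t' = true
      · rw [if_pos hh, if_pos ((h'.has_iff hR.inj hi).1 hh)]
      · rw [if_neg hh, if_neg (fun h'' => hh ((h'.has_iff hR.inj hi).2 h''))]
    rw [key h1, key h2, key h3]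
  · rw [Finset.mem_singleton]
    exact fun h => n3 (hinj _ h2 _ h3 h)
  · rw [Finset.mem_insert, Finset.mem_singleton]
    rintro (h | h)
    · exact n1 (hinj _ h1 _ h2 h)
    · exact n2 (hinj _ h1 _ h3 h)

lemma IsReal.Wst_eq (hR : IsReal H col bl u ng f zl) {i j : ℕ} (hi : i < u) (hj : j < u) :
    Wst bl i j = ∑ v ∈ H.neighborFinset (f i) ∩ zl.toFinset,
      ∑ w ∈ H.neighborFinset (f j) ∩ zl.toFinset, Mg H v w := by
  apply hR.sum_eq hi
  intro v t h
  symm
  apply hR.sum_eq hj
  intro w t' h'
  exact (hR.inter_eq h h').symm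

/-- A label with three listed blocks is complete. -/
lemma IsReal.complete (hR : IsReal H col bl u ng f zl) (hreg : ∀ v, (H.neighborFinset v).card = 3)
    {i : ℕ} (hi : i < u) (h3 : deg bl i = 3) :
    H.neighborFinset (f i) ∩ zl.toFinset = H.neighborFinset (f i) := by
  apply Finset.eq_of_subset_of_card_le Finset.inter_subset_left
  rw [hreg, ← hR.deg_eq hi, h3]

lemma IsReal.Mst_of_complete (hR : IsReal H col bl u ng f zl)
    (hreg : ∀ v, (H.neighborFinset v).card = 3) {i j : ℕ} (hi : i < u) (hj : j < u)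
    (h3 : deg bl i = 3) : Mst bl i j = Mg H (f i) (f j) := by
  rw [hR.Mst_eq hi hj, hR.complete hreg hi h3, Mg_eq_sum]

lemma IsReal.Wst_of_complete (hR : IsReal H col bl u ng f zl)
    (hreg : ∀ v, (H.neighborFinset v).card = 3) {i j : ℕ} (hi : i < u) (hj : j < u)
    (h3 : deg bl i = 3) (h3' : deg bl j = 3) : Wst bl i j = Wg H (f i) (f j) := by
  rw [hR.Wst_eq hi hj, hR.complete hreg hi h3, hR.complete hreg hj h3', Wg]

lemma IsReal.Wst_le (hR : IsReal H col bl u ng f zl) {i j : ℕ} (hi : i < u) (hj : j < u) :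
    Wst bl i j ≤ Wg H (f i) (f j) := by
  rw [hR.Wst_eq hi hj, Wg]
  refine (Finset.sum_le_sum_of_subset Finset.inter_subset_left).trans ?_
  apply Finset.sum_le_sum
  intro v _
  exact Finset.sum_le_sum_of_subset Finset.inter_subset_left

/-- An unlisted block through a point leaves room. -/
lemma IsReal.deg_lt (hR : IsReal H col bl u ng f zl) (hreg : ∀ v, (H.neighborFinset v).card = 3)
    {i : ℕ} (hi : i < u) {v : V} (hv : v ∉ zl) (hfi : f i ∈ H.neighborFinset v) :
    deg bl i < 3 := by
  rw [hR.deg_eq hi, ← hreg (f i)]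
  apply Finset.card_lt_card
  refine ⟨Finset.inter_subset_left, fun h => hv ?_⟩
  have : v ∈ H.neighborFinset (f i) := by
    rw [SimpleGraph.mem_neighborFinset] at hfi ⊢
    exact hfi.symm
  have := h this
  simpa using (Finset.mem_inter.1 this).2

lemma IsReal.Mst_lt (hR : IsReal H col bl u ng f zl) {i j : ℕ} (hi : i < u) (hj : j < u)
    {v : V} (hv : v ∉ zl) (hfi : f i ∈ H.neighborFinset v) (hfj : f j ∈ H.neighborFinset v) :
    Mst bl i j < Mg H (f i) (f j) := by
  rw [hR.Mst_eq hi hj, Mg_eq_sum]
  have hv' : v ∈ H.neighborFinset (f i) := by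
    rw [SimpleGraph.mem_neighborFinset] at hfi ⊢
    exact hfi.symm
  apply Finset.sum_lt_sum_of_subset Finset.inter_subset_left hv' (by simp [hv])
  · rw [if_pos hfj]; exact Nat.one_pos
  · intro _ _ _; exact Nat.zero_le _

/-- The state has a realization in `H`. -/
def Realizable (H : SimpleGraph V) [DecidableRel H.Adj] (col : V → Bool) (bl : List T)
    (u ng : ℕ) : Prop := ∃ (f : ℕ → V) (zl : List V), IsReal H col bl u ng f zl

lemma IsReal.add (hR : IsReal H col bl u ng f zl) {v : V} (hv : v ∉ zl) {a b c : ℕ}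
    (ha : a < u) (hb : b < u) (hc : c < u) (hab : a ≠ b) (hac : a ≠ c) (hbc : b ≠ c)
    (hN : H.neighborFinset v = {f a, f b, f c}) :
    IsReal H col ((a, b, c) :: bl) u ng f (v :: zl) where
  col := hR.col
  inj := hR.inj
  nodup := List.nodup_cons.2 ⟨hv, hR.nodup⟩
  blk := List.Forall₂.cons ⟨⟨ha, hb, hc⟩, ⟨hab, hac, hbc⟩, hN⟩ hR.blk
  ng := fun i k h => by
    obtain ⟨h1, h2, h3⟩ := hR.ng i k h
    exact ⟨h1, h2, fun w hw hw' => List.mem_cons_of_mem _ (h3 w hw hw')⟩

lemma IsReal.extend (hR : IsReal H col bl u ng f zl) {y : V} (hy : col y = false)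
    (hnew : ∀ i < u, f i ≠ y) :
    IsReal H col bl (u + 1) ng (Function.update f u y) zl where
  col := by
    intro i hi
    rcases Nat.lt_succ_iff_lt_or_eq.1 hi with h | rfl
    · rw [Function.update_of_ne h.ne]; exact hR.col i h
    · rw [Function.update_self]; exact hy
  inj := by
    intro i hi j hj hij
    rcases Nat.lt_succ_iff_lt_or_eq.1 hi with h | rfl <;>
      rcases Nat.lt_succ_iff_lt_or_eq.1 hj with h' | rfl
    · rw [Function.update_of_ne h.ne, Function.update_of_ne h'.ne] at hij
      exact hR.inj i h j h' hij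
    · rw [Function.update_of_ne h.ne, Function.update_self] at hij
      exact absurd hij (hnew i h)
    · rw [Function.update_of_ne h'.ne, Function.update_self] at hij
      exact absurd hij.symm (hnew j h')
    · rfl
  nodup := hR.nodup
  blk := by
    refine hR.blk.imp fun v t h => ?_
    obtain ⟨⟨h1, h2, h3⟩, hn, hN⟩ := h
    refine ⟨⟨by omega, by omega, by omega⟩, hn, ?_⟩
    rw [Function.update_of_ne h1.ne, Function.update_of_ne h2.ne, Function.update_of_ne h3.ne]
    exact hN
  ng := fun i k h => by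
    obtain ⟨h1, h2, h3⟩ := hR.ng i k h
    refine ⟨by omega, by omega, ?_⟩
    rw [Function.update_of_ne h1.ne, Function.update_of_ne h2.ne]
    exact h3

lemma IsReal.le_card (hR : IsReal H col bl u ng f zl) :
    u ≤ (Finset.univ.filter fun v => col v = false).card := by
  have h1 : ((Finset.range u).image f).card = u := by
    rw [Finset.card_image_of_injOn, Finset.card_range]
    intro i hi j hj hij
    exact hR.inj i (by simpa using hi) j (by simpa using hj) hij
  rw [← h1]
  apply Finset.card_le_card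
  intro v hv
  obtain ⟨i, hi, rfl⟩ := Finset.mem_image.1 hv
  rw [Finset.mem_filter]
  exact ⟨Finset.mem_univ _, hR.col i (by simpa using hi)⟩

lemma exists_pair {s : Finset V} (h3 : s.card = 3) {a : V} (ha : a ∈ s) :
    ∃ x y, x ≠ a ∧ y ≠ a ∧ x ≠ y ∧ s = {a, x, y} := by
  have h2 : (s.erase a).card = 2 := by rw [Finset.card_erase_of_mem ha, h3]
  obtain ⟨x, y, hxy, he⟩ := Finset.card_eq_two.1 h2
  refine ⟨x, y, ?_, ?_, hxy, ?_⟩
  · have : x ∈ s.erase a := by rw [he]; simp
    exact (Finset.mem_erase.1 this).1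
  · have : y ∈ s.erase a := by rw [he]; simp
    exact (Finset.mem_erase.1 this).1
  · rw [← Finset.insert_erase ha, he]

lemma exists_third {s : Finset V} (h3 : s.card = 3) {a b : V} (ha : a ∈ s) (hb : b ∈ s)
    (hab : a ≠ b) : ∃ x, x ≠ a ∧ x ≠ b ∧ s = {a, b, x} := by
  obtain ⟨x, y, hxa, hya, hxy, rfl⟩ := exists_pair h3 ha
  simp only [Finset.mem_insert, Finset.mem_singleton] at hb
  rcases hb with rfl | rfl | rfl
  · exact absurd rfl hab
  · exact ⟨y, hya, hxy.symm, rfl⟩
  · exact ⟨x, hxa, hxy, by rw [Finset.pair_comm]⟩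

lemma mem_pairs {mmax : ℕ} {bl : List T} {ng : ℕ} {k l : ℕ} (hkl : k ≠ l)
    (h1 : Mst bl k l < mmax) (h2 : Mst bl l k < mmax) (h3 : ngb ng k l = false)
    (h4 : ngb ng l k = false) : ∀ {L : List ℕ}, k ∈ L → l ∈ L →
      (k, l) ∈ pairs mmax bl ng L ∨ (l, k) ∈ pairs mmax bl ng L := by
  intro L
  induction L with
  | nil => intro h; simp at h
  | cons a L ih =>
    intro hk hl
    unfold pairs
    simp only [List.mem_append, List.mem_map, List.mem_filter, Prod.mk.injEq]
    rcases List.mem_cons.1 hk with rfl | hk' <;> rcases List.mem_cons.1 hl with rfl | hl'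
    · exact absurd rfl hkl
    · left; left
      refine ⟨l, ⟨hl', ?_⟩, rfl, rfl⟩
      rw [Bool.and_eq_true, Nat.blt_eq, h3]
      exact ⟨h1, rfl⟩
    · right; left
      refine ⟨k, ⟨hk', ?_⟩, rfl, rfl⟩
      rw [Bool.and_eq_true, Nat.blt_eq, h4]
      exact ⟨h2, rfl⟩
    · rcases ih hk' hl' with h | h
      · exact Or.inl (Or.inr h)
      · exact Or.inr (Or.inr h)

/-- The global hypotheses on the graph. -/
structure Hyp (H : SimpleGraph V) [DecidableRel H.Adj] (col : V → Bool) (nmax mmax : ℕ) :
    Prop where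
  reg : ∀ v, (H.neighborFinset v).card = 3
  proper : ∀ v w, H.Adj v w → col v ≠ col w
  card : nmax = 0 ∨ (Finset.univ.filter fun v => col v = false).card ≤ nmax
  mult : ∀ x y, x ≠ y → col x = false → col y = false → Mg H x y ≤ mmax

variable {nmax mmax : ℕ}

lemma Hyp.col_nb (hH : Hyp H col nmax mmax) {v x y : V} (hx : x ∈ H.neighborFinset v)
    (hy : y ∈ H.neighborFinset v) (hc : col x = false) : col y = false := by
  rw [SimpleGraph.mem_neighborFinset] at hx hy
  have h1 := hH.proper _ _ hx
  have h2 := hH.proper _ _ hy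
  rw [hc] at h1
  have : col v = true := by simpa using h1
  rw [this] at h2
  simpa using h2.symm

lemma okn_of (hH : Hyp H col nmax mmax) (hR : IsReal H col bl u ng f zl) : okn nmax u = true := by
  unfold okn
  rw [Bool.or_eq_true, Nat.beq_eq, Nat.ble_eq]
  rcases hH.card with h | h
  · exact Or.inl h
  · exact Or.inr (hR.le_card.trans h)

lemma IsReal.ngb_false (hR : IsReal H col bl u ng f zl) {i k : ℕ} {v : V} (hv : v ∉ zl)
    (hi : f i ∈ H.neighborFinset v) (hk : f k ∈ H.neighborFinset v) : ngb ng i k = false := by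
  by_contra h
  have h' : ngb ng i k = true := by simpa using h
  exact hv ((hR.ng i k h').2.2 v hi hk)

lemma IsReal.unk (hR : IsReal H col bl u ng f zl) (hH : Hyp H col nmax mmax) {i k : ℕ}
    (hi : i < u) (hk : k < u) (hki : k ≠ i) {v : V} (hv : v ∉ zl)
    (hfi : f i ∈ H.neighborFinset v) (hfk : f k ∈ H.neighborFinset v) :
    unk mmax bl ng i k = true := by
  unfold MP_5e604b_co.unk
  rw [Bool.and_eq_true, Bool.and_eq_true, Bool.and_eq_true, Nat.blt_eq, Nat.blt_eq,
    hR.ngb_false hv hfi hfk]
  refine ⟨?_, hR.deg_lt hH.reg hk hv hfk, ?_, rfl⟩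
  · rw [Bool.not_eq_true', ← Bool.not_eq_true, Nat.beq_eq]
    exact hki
  · refine (hR.Mst_lt hi hk hv hfi hfk).trans_le (hH.mult _ _ ?_ (hR.col i hi) (hR.col k hk))
    intro h
    exact hki (hR.inj k hk i hi h.symm)

/-- Branching over a missing block is exhaustive. -/
lemma IsReal.mkids (hR : IsReal H col bl u ng f zl) (hH : Hyp H col nmax mmax) {i : ℕ}
    (hi : i < u) (hdeg : deg bl i < 3) :
    ∃ s ∈ mkids nmax mmax bl u ng i, Realizable H col s.1 s.2.1 s.2.2 := by
  -- a missing block
  obtain ⟨v, hv, hfi⟩ : ∃ v, v ∉ zl ∧ f i ∈ H.neighborFinset v := by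
    by_contra hcon
    push Not at hcon
    have : H.neighborFinset (f i) ∩ zl.toFinset = H.neighborFinset (f i) := by
      apply Finset.inter_eq_left.2
      intro v hv
      by_contra h
      rw [SimpleGraph.mem_neighborFinset] at hv
      exact hcon v (by simpa using h) (by rw [SimpleGraph.mem_neighborFinset]; exact hv.symm)
    rw [hR.deg_eq hi, this, hH.reg] at hdeg
    exact absurd hdeg (lt_irrefl _)
  obtain ⟨x, y, hxi, hyi, hxy, hN⟩ := exists_pair (hH.reg v) hfi
  have hxN : x ∈ H.neighborFinset v := by rw [hN]; simp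
  have hyN : y ∈ H.neighborFinset v := by rw [hN]; simp
  have hcx : col x = false := hH.col_nb hfi hxN (hR.col i hi)
  have hcy : col y = false := hH.col_nb hfi hyN (hR.col i hi)
  -- the mixed case, used twice
  have mixed : ∀ x y : V, x ≠ f i → y ≠ f i → x ≠ y → H.neighborFinset v = {f i, x, y} →
      (∃ k < u, f k = x) → (¬ ∃ l < u, f l = y) → col y = false →
      ∃ s ∈ MP_5e604b_co.mkids nmax mmax bl u ng i, Realizable H col s.1 s.2.1 s.2.2 := by
    rintro x y hxi hyi hxy hN ⟨k, hk, rfl⟩ hy hcy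
    have hki : k ≠ i := fun h => hxi (by rw [h])
    have hnew : ∀ j < u, f j ≠ y := fun j hj h => hy ⟨j, hj, h⟩
    have hR1 := hR.extend hcy hnew
    have hR2 := hR1.add (a := i) (b := k) (c := u) hv (by omega) (by omega) (by omega)
      hki.symm (by omega) (by omega) (by
        rw [Function.update_of_ne hi.ne, Function.update_of_ne hk.ne, Function.update_self]
        exact hN)
    refine ⟨((i, k, u) :: bl, u + 1, ng), ?_, _, _, hR2⟩
    unfold MP_5e604b_co.mkids
    rw [List.mem_append, List.mem_append]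
    right; left
    rw [okn_of hH hR1, cond_true, List.mem_map]
    refine ⟨k, ?_, rfl⟩
    rw [List.mem_filter, List.mem_range]
    exact ⟨hk, hR.unk hH hi hk hki hv hfi (by rw [hN]; simp)⟩
  by_cases hx : ∃ k < u, f k = x
  · by_cases hy : ∃ l < u, f l = y
    · obtain ⟨k, hk, rfl⟩ := hx
      obtain ⟨l, hl, rfl⟩ := hy
      have hki : k ≠ i := fun h => hxi (by rw [h])
      have hli : l ≠ i := fun h => hyi (by rw [h])
      have hkl : k ≠ l := fun h => hxy (by rw [h])
      have hmem : ∀ j < u, j ≠ i → f j ∈ H.neighborFinset v →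
          j ∈ (List.range u).filter (MP_5e604b_co.unk mmax bl ng i) := by
        intro j hj hji hfj
        rw [List.mem_filter, List.mem_range]
        exact ⟨hj, hR.unk hH hi hj hji hv hfi hfj⟩
      have hb : ∀ a b : ℕ, a < u → b < u → a ≠ b → f a ∈ H.neighborFinset v →
          f b ∈ H.neighborFinset v → Mst bl a b < mmax := by
        intro a b ha hb hab hfa hfb
        refine (hR.Mst_lt ha hb hv hfa hfb).trans_le (hH.mult _ _ ?_ (hR.col a ha) (hR.col b hb))
        intro h
        exact hab (hR.inj a ha b hb h)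
      have := mem_pairs (mmax := mmax) (bl := bl) (ng := ng) hkl (hb k l hk hl hkl hxN hyN)
        (hb l k hl hk hkl.symm hyN hxN) (hR.ngb_false hv hxN hyN) (hR.ngb_false hv hyN hxN)
        (hmem k hk hki hxN) (hmem l hl hli hyN)
      rcases this with h | h
      · refine ⟨((i, k, l) :: bl, u, ng), ?_, f, v :: zl,
          hR.add hv hi hk hl hki.symm hli.symm hkl hN⟩
        unfold MP_5e604b_co.mkids
        rw [List.mem_append, List.mem_map]
        exact Or.inl ⟨(k, l), h, rfl⟩
      · refine ⟨((i, l, k) :: bl, u, ng), ?_, f, v :: zl,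
          hR.add hv hi hl hk hli.symm hki.symm hkl.symm (by rw [hN, Finset.pair_comm])⟩
        unfold MP_5e604b_co.mkids
        rw [List.mem_append, List.mem_map]
        exact Or.inl ⟨(l, k), h, rfl⟩
    · exact mixed x y hxi hyi hxy hN hx hy hcy
  · by_cases hy : ∃ l < u, f l = y
    · exact mixed y x hyi hxi hxy.symm (by rw [hN, Finset.pair_comm]) hy hx hcx
    · have hnewx : ∀ j < u, f j ≠ x := fun j hj h => hx ⟨j, hj, h⟩
      have hR1 := hR.extend hcx hnewx
      have hnewy : ∀ j < u + 1, Function.update f u x j ≠ y := by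
        intro j hj
        rcases Nat.lt_succ_iff_lt_or_eq.1 hj with h | rfl
        · rw [Function.update_of_ne h.ne]
          exact fun h' => hy ⟨j, h, h'⟩
        · rw [Function.update_self]; exact hxy
      have hR2 := hR1.extend hcy hnewy
      have hR3 := hR2.add (a := i) (b := u) (c := u + 1) hv (by omega) (by omega) (by omega)
        (by omega) (by omega) (by omega) (by
          rw [Function.update_of_ne (show i ≠ u + 1 by omega), Function.update_of_ne hi.ne,
            Function.update_of_ne (show u ≠ u + 1 by omega), Function.update_self,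
            Function.update_self]
          exact hN)
      refine ⟨((i, u, u + 1) :: bl, u + 2, ng), ?_, _, _, hR3⟩
      unfold MP_5e604b_co.mkids
      rw [List.mem_append, List.mem_append]
      right; right
      have : okn nmax (u + 2) = true := okn_of hH hR2
      rw [this, cond_true]
      simp

/-- Branching over a pair is exhaustive. -/
lemma IsReal.pkids (hR : IsReal H col bl u ng f zl) (hH : Hyp H col nmax mmax) {i k : ℕ}
    (hi : i < u) (hk : k < u) (hik : i ≠ k) (hu : u ≤ 32) :
    ∃ s ∈ pkids nmax mmax bl u ng i k, Realizable H col s.1 s.2.1 s.2.2 := by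
  have hfik : f i ≠ f k := fun h => hik (hR.inj i hi k hk h)
  by_cases hex : ∃ v, v ∉ zl ∧ f i ∈ H.neighborFinset v ∧ f k ∈ H.neighborFinset v
  · obtain ⟨v, hv, hfi, hfk⟩ := hex
    obtain ⟨x, hxi, hxk, hN⟩ := exists_third (hH.reg v) hfi hfk hfik
    have hxN : x ∈ H.neighborFinset v := by rw [hN]; simp
    have hcx : col x = false := hH.col_nb hfi hxN (hR.col i hi)
    by_cases hx : ∃ l < u, f l = x
    · obtain ⟨l, hl, rfl⟩ := hx
      have hli : l ≠ i := fun h => hxi (by rw [h])
      have hlk : l ≠ k := fun h => hxk (by rw [h])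
      refine ⟨((i, k, l) :: bl, u, ng), ?_, f, v :: zl,
        hR.add hv hi hk hl hik hli.symm hlk.symm hN⟩
      unfold MP_5e604b_co.pkids
      rw [List.mem_append, List.mem_map]
      left
      refine ⟨l, ?_, rfl⟩
      rw [List.mem_filter, List.mem_range, Bool.and_eq_true]
      exact ⟨hl, hR.unk hH hi hl hli hv hfi hxN, hR.unk hH hk hl hlk hv hfk hxN⟩
    · have hnew : ∀ j < u, f j ≠ x := fun j hj h => hx ⟨j, hj, h⟩
      have hR1 := hR.extend hcx hnew
      have hR2 := hR1.add (a := i) (b := k) (c := u) hv (by omega) (by omega) (by omega)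
        hik (by omega) (by omega) (by
          rw [Function.update_of_ne hi.ne, Function.update_of_ne hk.ne, Function.update_self]
          exact hN)
      refine ⟨((i, k, u) :: bl, u + 1, ng), ?_, _, _, hR2⟩
      unfold MP_5e604b_co.pkids
      rw [List.mem_append, List.mem_append]
      right; left
      rw [okn_of hH hR1, cond_true]
      simp
  · push Not at hex
    refine ⟨(bl, u, ng ||| 2 ^ (32 * i + k) ||| 2 ^ (32 * k + i)), ?_, f, zl, ?_⟩
    · unfold MP_5e604b_co.pkids
      rw [List.mem_append, List.mem_append]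
      right; right
      simp
    · refine ⟨hR.col, hR.inj, hR.nodup, hR.blk, ?_⟩
      intro a b hab
      unfold ngb at hab
      rw [Bool.and_eq_true, Nat.blt_eq, Nat.testBit_or, Nat.testBit_or, Bool.or_eq_true,
        Bool.or_eq_true, Nat.testBit_two_pow, Nat.testBit_two_pow, decide_eq_true_eq,
        decide_eq_true_eq] at hab
      obtain ⟨hb, (h | h) | h⟩ := hab
      · apply hR.ng a b
        unfold ngb
        rw [Bool.and_eq_true, Nat.blt_eq]
        exact ⟨hb, h⟩
      · have h1 : a = i := by omega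
        have h2 : b = k := by omega
        subst h1; subst h2
        refine ⟨hi, hk, fun v h1 h2 => ?_⟩
        by_contra hv
        exact hex v hv h1 h2
      · have h1 : a = k := by omega
        have h2 : b = i := by omega
        subst h1; subst h2
        refine ⟨hk, hi, fun v h1 h2 => ?_⟩
        by_contra hv
        exact hex v hv h2 h1

lemma foldl_bind {S : Type*} {g : S → ℕ → Option ℕ} : ∀ {l : List S} {a : Option ℕ} {c : ℕ},
    l.foldl (fun acc s => acc.bind fun c' => g s c') a = some c →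
      ∀ s ∈ l, ∃ c₁ c₂, g s c₁ = some c₂ := by
  have hnone : ∀ l : List S, l.foldl (fun acc s => acc.bind fun c' => g s c') none = none := by
    intro l
    induction l with
    | nil => rfl
    | cons a l ih => simpa using ih
  intro l
  induction l with
  | nil => intro a c _ s hs; simp at hs
  | cons x l ih =>
    intro a c h s hs
    rw [List.foldl_cons] at h
    rcases List.mem_cons.1 hs with rfl | hs
    · cases a with
      | none => rw [Option.bind_none, hnone] at h; exact absurd h (by simp)
      | some a =>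
        rw [Option.bind_some] at h
        cases hg : g s a with
        | none => rw [hg, hnone] at h; exact absurd h (by simp)
        | some c₂ => exact ⟨a, c₂, hg⟩
    · exact ih h s hs

/-- Soundness of the checker. -/
theorem run_sound {C : Prop} {nargs : ℕ} {bad : List T → ℕ → List ℕ → Bool} {tgts : List Tgt}
    (hH : Hyp H col nmax mmax)
    (hbad : ∀ (bl : List T) (u ng : ℕ) (f : ℕ → V) (zl : List V) (args : List ℕ),
      IsReal H col bl u ng f zl → bad bl u args = true → C)
    (hleaf : ∀ tg ∈ tgts, ∀ (bl : List T) (u ng : ℕ) (f : ℕ → V) (zl : List V) (rho : List ℕ),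
      IsReal H col bl u ng f zl → leafOK tg bl u rho = true → C) :
    ∀ (k : ℕ) (bl : List T) (u ng c c' : ℕ),
      run nmax mmax nargs bad tgts k bl u ng c = some c' → Realizable H col bl u ng → C := by
  intro k
  induction k with
  | zero => intro bl u ng c c' h; exact absurd h (by simp [run])
  | succ k ih =>
    intro bl u ng c c' h hreal
    unfold run at h
    obtain ⟨f, zl, hR⟩ := hreal
    split at h
    · -- prune
      cases hb : bad bl u (takeN nargs (c / 64)).1 with
      | false => rw [hb, cond_false] at h; exact absurd h (by simp)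
      | true => exact hbad _ _ _ _ _ _ hR hb
    · -- missing block branch
      cases hc : (Nat.blt ((c / 64) % 64) u && Nat.blt (deg bl ((c / 64) % 64)) 3) with
      | false => rw [hc, cond_false] at h; exact absurd h (by simp)
      | true =>
        rw [hc, cond_true] at h
        rw [Bool.and_eq_true, Nat.blt_eq, Nat.blt_eq] at hc
        obtain ⟨s, hs, hsr⟩ := hR.mkids hH hc.1 hc.2
        obtain ⟨c₁, c₂, hc12⟩ := foldl_bind h s hs
        exact ih _ _ _ _ _ hc12 hsr
    · -- leaf
      cases hc : (Nat.blt ((c / 64) % 64) tgts.length &&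
          leafOK (tgts.getD ((c / 64) % 64) ⟨0, []⟩) bl u
          (takeN (tgts.getD ((c / 64) % 64) ⟨0, []⟩).N (c / 64 / 64)).1) with
      | false => rw [hc, cond_false] at h; exact absurd h (by simp)
      | true =>
        rw [Bool.and_eq_true, Nat.blt_eq] at hc
        refine hleaf _ ?_ _ _ _ _ _ _ hR hc.2
        rw [List.getD_eq_getElem _ _ hc.1]
        exact List.getElem_mem _
    · -- pair branch
      cases hc : (Nat.blt ((c / 64) % 64) u && (Nat.blt ((c / 64 / 64) % 64) u &&
          (Nat.ble u 32 && !(Nat.beq ((c / 64) % 64) ((c / 64 / 64) % 64))))) with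
      | false => rw [hc, cond_false] at h; exact absurd h (by simp)
      | true =>
        rw [hc, cond_true] at h
        rw [Bool.and_eq_true, Bool.and_eq_true, Bool.and_eq_true, Nat.blt_eq, Nat.blt_eq,
          Nat.ble_eq, Bool.not_eq_true', ← Bool.not_eq_true, Nat.beq_eq] at hc
        obtain ⟨s, hs, hsr⟩ := hR.pkids hH hc.1 hc.2.1 hc.2.2.2 hc.2.2.1
        obtain ⟨c₁, c₂, hc12⟩ := foldl_bind h s hs
        exact ih _ _ _ _ _ hc12 hsr
    · exact absurd h (by simp)

/-- The initial state. -/
lemma realizable_init {x : V} (hx : col x = false) : Realizable H col [] 1 0 := by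
  refine ⟨fun _ => x, [], ?_, ?_, List.nodup_nil, List.Forall₂.nil, ?_⟩
  · intro i _; exact hx
  · intro i hi j hj _; omega
  · intro i k h
    unfold ngb at h
    simp at h

/-! ### Leaves -/

lemma closed_univ (hconn : H.Connected) {S : Set V} {x₀ : V} (h0 : x₀ ∈ S)
    (hcl : ∀ v ∈ S, ∀ w, H.Adj v w → w ∈ S) (v : V) : v ∈ S := by
  obtain ⟨p⟩ := hconn.preconnected x₀ v
  induction p with
  | nil => exact h0
  | cons h p ih => exact ih (hcl _ h0 _ h)

lemma iso_of_hom {W : Type*} [Fintype W] [DecidableEq W] {G : SimpleGraph W}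
    [DecidableRel G.Adj] (hG : ∀ w, (G.neighborFinset w).card = 3)
    (hH : ∀ v, (H.neighborFinset v).card = 3) (hconn : H.Connected) (w₀ : W) (F : W → V)
    (hF : Function.Injective F) (hom : ∀ y z, G.Adj y z → H.Adj (F y) (F z)) :
    Nonempty (G ≃g H) := by
  have key : ∀ y, (G.neighborFinset y).image F = H.neighborFinset (F y) := by
    intro y
    apply Finset.eq_of_subset_of_card_le
    · intro v hv
      obtain ⟨z, hz, rfl⟩ := Finset.mem_image.1 hv
      rw [SimpleGraph.mem_neighborFinset] at hz ⊢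
      exact hom y z hz
    · rw [hH, Finset.card_image_of_injective _ hF, hG]
  have hsurj : Function.Surjective F := by
    intro v
    refine closed_univ hconn (S := Set.range F) ⟨w₀, rfl⟩ ?_ v
    rintro _ ⟨y, rfl⟩ w hw
    have : w ∈ (G.neighborFinset y).image F := by
      rw [key, SimpleGraph.mem_neighborFinset]; exact hw
    obtain ⟨z, -, rfl⟩ := Finset.mem_image.1 this
    exact ⟨z, rfl⟩
  refine ⟨⟨Equiv.ofBijective F ⟨hF, hsurj⟩, ?_⟩⟩
  intro y z
  constructor
  · intro h
    have : F z ∈ (G.neighborFinset y).image F := by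
      rw [key, SimpleGraph.mem_neighborFinset]; exact h
    obtain ⟨z', hz', he⟩ := Finset.mem_image.1 this
    rw [SimpleGraph.mem_neighborFinset] at hz'
    rwa [hF he] at hz'
  · exact hom y z

/-- What a target graph has to satisfy. -/
structure IsTgt (tg : Tgt) (G : SimpleGraph (Fin tg.N)) [DecidableRel G.Adj] : Prop where
  reg : ∀ w, (G.neighborFinset w).card = 3
  adj : ∀ y z : Fin tg.N, G.Adj y z → z.val = nxt tg.N y ∨ z.val = cho tg y ∨
    y.val = nxt tg.N z ∨ y.val = cho tg z
  pos : 0 < tg.N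

/-- vertex of the graph with a given code -/
def codeV (u : ℕ) (f : ℕ → V) (zl : List V) (a : ℕ) : V := if a < u then f a else zl.getD (a - 32) (f 0)

lemma Rel_of_getElem {zl : List V} {bl : List T} (h : List.Forall₂ (Rel H u f) zl bl) {m : ℕ}
    (hm : m < bl.length) : ∃ hm' : m < zl.length, Rel H u f zl[m] bl[m] := by
  have hlen := h.length_eq
  have hm' : m < zl.length := by omega
  refine ⟨hm', ?_⟩
  have := List.forall₂_iff_get.1 h
  exact this.2 m hm' hm

lemma IsReal.incAB (hR : IsReal H col bl u ng f zl) (hu : u ≤ 32) {a b : ℕ}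
    (h : incAB bl u a b = true) :
    a < u ∧ ¬ b < u ∧ b - 32 < zl.length ∧ 32 ≤ b ∧
      H.Adj (codeV u f zl a) (codeV u f zl b) := by
  unfold MP_5e604b_co.incAB at h
  rw [Bool.and_eq_true, Bool.and_eq_true, Nat.blt_eq, Nat.ble_eq] at h
  obtain ⟨ha, hb, hh⟩ := h
  have hm : b - 32 < bl.length := by
    by_contra hcon
    rw [List.getD_eq_default _ _ (by omega), MP_5e604b_co.has_iff] at hh
    dsimp only at hh
    omega
  obtain ⟨hm', hrel⟩ := Rel_of_getElem hR.blk hm
  have hbu : ¬ b < u := by omega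
  refine ⟨ha, hbu, hm', hb, ?_⟩
  unfold codeV
  rw [if_pos ha, if_neg hbu, List.getD_eq_getElem _ _ hm']
  rw [List.getD_eq_getElem _ _ hm] at hh
  have := (hrel.has_iff hR.inj ha).1 hh
  rw [SimpleGraph.mem_neighborFinset] at this
  exact this.symm

/-- Soundness of the leaf test. -/
theorem leaf_sound (hR : IsReal H col bl u ng f zl) (hreg : ∀ v, (H.neighborFinset v).card = 3)
    (hconn : H.Connected) (hprop : ∀ v w, H.Adj v w → col v ≠ col w)
    {tg : Tgt} {G : SimpleGraph (Fin tg.N)} [DecidableRel G.Adj] (hG : IsTgt tg G)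
    {rho : List ℕ} (h : leafOK tg bl u rho = true) : Nonempty (G ≃g H) := by
  unfold leafOK at h
  rw [Bool.and_eq_true, Bool.and_eq_true, Bool.and_eq_true, Nat.ble_eq, Nat.beq_eq,
    List.all_eq_true, decide_eq_true_eq] at h
  obtain ⟨hu, hlen, hall, hnd⟩ := h
  have hinc : ∀ y < tg.N, incCode bl u (rho.getD y 0) (rho.getD (nxt tg.N y) 0) = true ∧
      incCode bl u (rho.getD y 0) (rho.getD (cho tg y) 0) = true := by
    intro y hy
    have := hall y (List.mem_range.2 hy)
    rwa [Bool.and_eq_true] at this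
  -- validity of the codes
  have hadj : ∀ a b, incCode bl u a b = true → H.Adj (codeV u f zl a) (codeV u f zl b) ∧
      (a < u ∨ (¬ a < u ∧ 32 ≤ a ∧ a - 32 < zl.length)) := by
    intro a b hab
    unfold incCode at hab
    rw [Bool.or_eq_true] at hab
    rcases hab with h | h
    · obtain ⟨h1, -, -, -, h5⟩ := hR.incAB hu h
      exact ⟨h5, Or.inl h1⟩
    · obtain ⟨h1, h2, h3, h4, h5⟩ := hR.incAB hu h
      exact ⟨h5.symm, Or.inr ⟨h2, h4, h3⟩⟩
  have hblockcol : ∀ m (hm : m < zl.length), col zl[m] = true := by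
    intro m hm
    have hm' : m < bl.length := by rw [← hR.blk.length_eq]; exact hm
    obtain ⟨_, hrel⟩ := Rel_of_getElem hR.blk hm'
    have h1 : f bl[m].1 ∈ H.neighborFinset zl[m] := by rw [hrel.2.2]; simp
    rw [SimpleGraph.mem_neighborFinset] at h1
    have h2 := hprop _ _ h1
    rw [hR.col _ hrel.1.1] at h2
    simpa using h2
  have hinjc : ∀ a b, (a < u ∨ (¬ a < u ∧ 32 ≤ a ∧ a - 32 < zl.length)) →
      (b < u ∨ (¬ b < u ∧ 32 ≤ b ∧ b - 32 < zl.length)) →
      codeV u f zl a = codeV u f zl b → a = b := by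
    intro a b ha hb hab
    unfold codeV at hab
    rcases ha with ha | ⟨ha, ha32, hal⟩ <;> rcases hb with hb | ⟨hb, hb32, hbl⟩
    · rw [if_pos ha, if_pos hb] at hab
      exact hR.inj a ha b hb hab
    · rw [if_pos ha, if_neg hb, List.getD_eq_getElem _ _ hbl] at hab
      have h1 := hR.col a ha
      rw [hab, hblockcol] at h1
      exact absurd h1 (by simp)
    · rw [if_neg ha, if_pos hb, List.getD_eq_getElem _ _ hal] at hab
      have h1 := hR.col b hb
      rw [← hab, hblockcol] at h1
      exact absurd h1 (by simp)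
    · rw [if_neg ha, if_neg hb, List.getD_eq_getElem _ _ hal, List.getD_eq_getElem _ _ hbl] at hab
      have := (List.Nodup.getElem_inj_iff hR.nodup).1 hab
      omega
  refine iso_of_hom hG.reg hreg hconn ⟨0, hG.pos⟩ (fun y => codeV u f zl (rho.getD y.val 0)) ?_ ?_
  · intro y z hyz
    have h1 := hinjc _ _ (hadj _ _ (hinc y.val y.isLt).1).2 (hadj _ _ (hinc z.val z.isLt).1).2 hyz
    have hy : y.val < rho.length := by rw [hlen]; exact y.isLt
    have hz : z.val < rho.length := by rw [hlen]; exact z.isLt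
    rw [List.getD_eq_getElem _ _ hy, List.getD_eq_getElem _ _ hz] at h1
    exact Fin.ext ((List.Nodup.getElem_inj_iff hnd).1 h1)
  · intro y z hyz
    rcases hG.adj y z hyz with h | h | h | h
    · have := (hadj _ _ (hinc y.val y.isLt).1).1
      rw [← h] at this
      exact this
    · have := (hadj _ _ (hinc y.val y.isLt).2).1
      rw [← h] at this
      exact this
    · have := (hadj _ _ (hinc z.val z.isLt).1).1
      rw [← h] at this
      exact this.symm
    · have := (hadj _ _ (hinc z.val z.isLt).2).1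
      rw [← h] at this
      exact this.symm

end real

end Pool.Agent.H.MP_5e604b_co
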