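import Pool.Agent.H.MP_5e604b_co.Linear
import Pool.Agent.H.MP_5e604b_co.CertA
import Pool.Agent.H.MP_5e604b_co.CertB
import Pool.Agent.H.MP_5e604b_co.CertC
import Pool.Agent.H.MP_5e604b_co.CertD

/-!
Classification of the connected cubic bipartite graphs whose squared adjacency matrix has at most
three distinct eigenvalues.
-/

namespace Pool.Agent.H.MP_5e604b_co

section combi

set_option linter.unusedSectionVars false

variable {V : Type*} [Fintype V] [DecidableEq V] {H : SimpleGraph V} [DecidableRel H.Adj]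

lemma Mg_self (hreg : ∀ v, (H.neighborFinset v).card = 3) (x : V) : Mg H x x = 3 := by
  unfold Mg; rw [Finset.inter_self, hreg]

lemma Mg_le (hreg : ∀ v, (H.neighborFinset v).card = 3) (x y : V) : Mg H x y ≤ 3 := by
  unfold Mg
  rw [← hreg x]
  exact Finset.card_le_card Finset.inter_subset_left

lemma Mg_pos {x y z : V} (hx : z ∈ H.neighborFinset x) (hy : z ∈ H.neighborFinset y) :
    1 ≤ Mg H x y :=
  Finset.card_pos.2 ⟨z, Finset.mem_inter.2 ⟨hx, hy⟩⟩

lemma mem_nb_comm {x y : V} : x ∈ H.neighborFinset y ↔ y ∈ H.neighborFinset x := by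
  rw [SimpleGraph.mem_neighborFinset, SimpleGraph.mem_neighborFinset, H.adj_comm]

lemma sum_three {F : V → ℕ} {s : Finset V} {a b c : V} (hs : s = {a, b, c}) (hab : a ≠ b)
    (hac : a ≠ c) (hbc : b ≠ c) : ∑ v ∈ s, F v = F a + F b + F c := by
  rw [hs, Finset.sum_insert (by simp [hab, hac]), Finset.sum_insert (by simp [hbc]),
    Finset.sum_singleton, add_assoc]

/-- The number of closed walks of length four. -/
lemma Wg_self (hreg : ∀ v, (H.neighborFinset v).card = 3) (x : V) :
    Wg H x x % 2 = 1 ∧ 15 ≤ Wg H x x ∧ Wg H x x ≤ 27 := by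
  obtain ⟨a, b, c, hab, hac, hbc, hN⟩ := Finset.card_eq_three.1 (hreg x)
  have ha : x ∈ H.neighborFinset a := mem_nb_comm.1 (by rw [hN]; simp)
  have hb : x ∈ H.neighborFinset b := mem_nb_comm.1 (by rw [hN]; simp)
  have hc : x ∈ H.neighborFinset c := mem_nb_comm.1 (by rw [hN]; simp)
  have h : Wg H x x = 9 + 2 * (Mg H a b + Mg H a c + Mg H b c) := by
    unfold Wg
    rw [sum_three hN hab hac hbc, sum_three hN hab hac hbc, sum_three hN hab hac hbc,
      sum_three hN hab hac hbc, Mg_self hreg, Mg_self hreg, Mg_self hreg, Mg_comm b a,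
      Mg_comm c a, Mg_comm c b]
    ring
  have h1 := Mg_pos ha hb
  have h2 := Mg_pos ha hc
  have h3 := Mg_pos hb hc
  have h4 := Mg_le hreg a b
  have h5 := Mg_le hreg a c
  have h6 := Mg_le hreg b c
  omega

/-- Multiplicities are bounded by the number of closed walks. -/
lemma mult_le (hreg : ∀ v, (H.neighborFinset v).card = 3) {x y : V} (hxy : x ≠ y) :
    (Mg H x y = 2 → 17 ≤ Wg H x x) ∧ (Mg H x y = 3 → 21 ≤ Wg H x x) := by
  obtain ⟨a, b, c, hab, hac, hbc, hN⟩ := Finset.card_eq_three.1 (hreg x)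
  have ha : x ∈ H.neighborFinset a := mem_nb_comm.1 (by rw [hN]; simp)
  have hb : x ∈ H.neighborFinset b := mem_nb_comm.1 (by rw [hN]; simp)
  have hc : x ∈ H.neighborFinset c := mem_nb_comm.1 (by rw [hN]; simp)
  have h : Wg H x x = 9 + 2 * (Mg H a b + Mg H a c + Mg H b c) := by
    unfold Wg
    rw [sum_three hN hab hac hbc, sum_three hN hab hac hbc, sum_three hN hab hac hbc,
      sum_three hN hab hac hbc, Mg_self hreg, Mg_self hreg, Mg_self hreg, Mg_comm b a,
      Mg_comm c a, Mg_comm c b]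
    ring
  have hM : Mg H x y = (if y ∈ H.neighborFinset a then 1 else 0) +
      (if y ∈ H.neighborFinset b then 1 else 0) + (if y ∈ H.neighborFinset c then 1 else 0) := by
    rw [Mg_eq_sum, sum_three hN hab hac hbc]
  have key : ∀ {p q : V}, x ∈ H.neighborFinset p → x ∈ H.neighborFinset q →
      y ∈ H.neighborFinset p → y ∈ H.neighborFinset q → 2 ≤ Mg H p q := by
    intro p q h1 h2 h3 h4
    have : ({x, y} : Finset V) ⊆ H.neighborFinset p ∩ H.neighborFinset q := by
      intro z hz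
      rw [Finset.mem_insert, Finset.mem_singleton] at hz
      rw [Finset.mem_inter]
      rcases hz with rfl | rfl
      · exact ⟨h1, h2⟩
      · exact ⟨h3, h4⟩
    have h5 := Finset.card_le_card this
    rw [Finset.card_pair hxy] at h5
    exact h5
  have h1 := Mg_pos ha hb
  have h2 := Mg_pos ha hc
  have h3 := Mg_pos hb hc
  by_cases ya : y ∈ H.neighborFinset a <;> by_cases yb : y ∈ H.neighborFinset b <;>
    by_cases yc : y ∈ H.neighborFinset c
  · have := key ha hb ya yb
    have := key ha hc ya yc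
    have := key hb hc yb yc
    rw [if_pos ya, if_pos yb, if_pos yc] at hM
    omega
  · have := key ha hb ya yb
    rw [if_pos ya, if_pos yb, if_neg yc] at hM
    omega
  · have := key ha hc ya yc
    rw [if_pos ya, if_neg yb, if_pos yc] at hM
    omega
  · rw [if_pos ya, if_neg yb, if_neg yc] at hM
    omega
  · have := key hb hc yb yc
    rw [if_neg ya, if_pos yb, if_pos yc] at hM
    omega
  · rw [if_neg ya, if_pos yb, if_neg yc] at hM
    omega
  · rw [if_neg ya, if_neg yb, if_pos yc] at hM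
    omega
  · rw [if_neg ya, if_neg yb, if_neg yc] at hM
    omega

/-- Two points on a common block are joined by at least seven walks of length four. -/
lemma Wg_adj (hreg : ∀ v, (H.neighborFinset v).card = 3) {x y : V} (hM : 1 ≤ Mg H x y) :
    7 ≤ Wg H x y := by
  obtain ⟨v, hv⟩ := Finset.card_pos.1 hM
  rw [Finset.mem_inter] at hv
  obtain ⟨b, b', hb, hb', hbb, hNx⟩ := exists_pair (hreg x) hv.1
  obtain ⟨c, c', hc, hc', hcc, hNy⟩ := exists_pair (hreg y) hv.2
  have hxb : x ∈ H.neighborFinset b := mem_nb_comm.1 (by rw [hNx]; simp)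
  have hxb' : x ∈ H.neighborFinset b' := mem_nb_comm.1 (by rw [hNx]; simp)
  have hxv : x ∈ H.neighborFinset v := mem_nb_comm.1 hv.1
  have hyc : y ∈ H.neighborFinset c := mem_nb_comm.1 (by rw [hNy]; simp)
  have hyc' : y ∈ H.neighborFinset c' := mem_nb_comm.1 (by rw [hNy]; simp)
  have hyv : y ∈ H.neighborFinset v := mem_nb_comm.1 hv.2
  unfold Wg
  rw [sum_three hNx hb.symm hb'.symm hbb, sum_three hNy hc.symm hc'.symm hcc,
    sum_three hNy hc.symm hc'.symm hcc, sum_three hNy hc.symm hc'.symm hcc, Mg_self hreg]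
  have h1 := Mg_pos hyv hyc
  have h2 := Mg_pos hyv hyc'
  have h3 := Mg_pos hxb hxv
  have h4 := Mg_pos hxb' hxv
  omega

lemma sum_Mg (hreg : ∀ v, (H.neighborFinset v).card = 3) {col : V → Bool}
    (hprop : ∀ v w, H.Adj v w → col v ≠ col w) (x : V) :
    ∑ y ∈ Finset.univ.filter (fun v => col v = col x), Mg H x y = 9 := by
  have h1 := congrFun (sq_mulVec_ind hreg hprop (col x)) x
  change ∑ y, sq H x y * ind col (col x) y = _ at h1
  have h2 : (9 : ℝ) • ind col (col x) x = 9 := by simp [ind]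
  rw [Pi.smul_apply, h2] at h1
  have h3 : ∀ y, sq H x y * ind col (col x) y
      = if col y = col x then (Mg H x y : ℝ) else 0 := by
    intro y
    rw [sq_apply]
    unfold ind
    split_ifs <;> simp
  rw [Finset.sum_congr rfl fun y _ => h3 y, ← Finset.sum_filter] at h1
  exact_mod_cast h1

end combi

/-! ### Arithmetic -/

/-- The admissible parameter sets `(n, w0, W1, B)`. -/
def plist : List (ℕ × ℕ × ℕ × ℕ) :=
  [(8, 15, 10, 6), (8, 17, 10, 4), (9, 15, 9, 6), (9, 17, 8, 8), (9, 21, 9, 3), (10, 15, 9, 4),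
   (10, 21, 8, 4), (13, 15, 8, 3), (13, 27, 7, 2), (15, 15, 7, 3), (16, 15, 8, 2), (18, 17, 7, 2),
   (27, 19, 7, 1)]

lemma arith_check : ∀ n ∈ List.range 32, 8 ≤ n → ∀ w0 ∈ [15, 17, 19, 21, 23, 25, 27],
    ∀ W1 ∈ List.range 11, 7 ≤ W1 → ∀ B ∈ List.range 25, 1 ≤ B →
      (n - 7) * B + 6 * W1 + w0 = 81 →
      ∀ m ∈ List.range n,
        (((W1 : ℤ) - B) ^ 2 - 4 * (3 * ((W1 : ℤ) - B) + B - w0)) * (2 * (m : ℤ) - (n - 1)) ^ 2
          = (6 * (n : ℤ) - 18 - ((W1 : ℤ) - B) * (n - 1)) ^ 2 →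
        (n, w0, W1, B) ∈ plist := by
  decide +kernel

/-! ### The classification of the connected graphs -/

section classify

set_option linter.unusedSectionVars false

variable {V : Type*} [Fintype V] [DecidableEq V] {H : SimpleGraph V} [DecidableRel H.Adj]

/-- The case of known parameters. -/
lemma classify_param (hreg : ∀ v, (H.neighborFinset v).card = 3) (hconn : H.Connected)
    {col : V → Bool} (hprop : ∀ v w, H.Adj v w → col v ≠ col w) {x₀ : V} (hx₀ : col x₀ = false)
    {n w0 p B mmax fuel cert : ℕ}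
    (hn : (Finset.univ.filter fun v => col v = false).card = n)
    (hW : ∀ x y, col x = false → col y = false → Wg H x y = if x = y then w0 else p * Mg H x y + B)
    (hm : mmax = 3 ∨ (mmax = 2 ∧ w0 < 21) ∨ (mmax = 1 ∧ w0 < 17))
    (hrun : (run n mmax 2 (badParam w0 p B) tgts fuel [] 1 0 cert).isSome = true) :
    ∃ c ∈ codes, Nonempty (lcf c.1 c.2 ≃g H) := by
  refine run_iso hrun ⟨hreg, hprop, Or.inr hn.le, ?_⟩ hconn hx₀
    (fun bl u ng f zl args hR hb => badParam_sound hreg hW hR hb)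
  intro x y hxy hx hy
  have h1 := mult_le hreg hxy
  have h2 := Mg_le hreg x y
  have h3 := hW x x hx hx
  rw [if_pos rfl] at h3
  rcases hm with rfl | ⟨rfl, hw⟩ | ⟨rfl, hw⟩
  · exact h2
  · by_contra hcon
    have := h1.2 (by omega)
    omega
  · by_contra hcon
    rcases (show Mg H x y = 2 ∨ Mg H x y = 3 by omega) with h | h
    · have := h1.1 h
      omega
    · have := h1.2 h
      omega

theorem classify_aux (hreg : ∀ v, (H.neighborFinset v).card = 3) (hconn : H.Connected)
    {col : V → Bool} (hprop : ∀ v w, H.Adj v w → col v ≠ col w) {x₀ : V} (hx₀ : col x₀ = false)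
    {a b : ℝ} (hab : a ≠ b) (ha : a ≠ 9) (hb : b ≠ 9)
    (hs : ∀ μ ∈ spectrum ℝ (H.adjMatrix ℝ), μ ^ 2 = 9 ∨ μ ^ 2 = a ∨ μ ^ 2 = b) :
    ∃ c ∈ codes, Nonempty (lcf c.1 c.2 ≃g H) := by
  obtain ⟨β, hW, hnβ⟩ := quad_identity hreg hconn hprop hs (x₀ := x₀)
  rw [hx₀] at hW hnβ
  obtain ⟨n, hn⟩ : ∃ n, (Finset.univ.filter fun v => col v = false).card = n := ⟨_, rfl⟩
  rw [hn] at hnβ
  have hn0 : n ≠ 0 := by
    rw [← hn]
    exact (Finset.card_pos.2 ⟨x₀, by simp [hx₀]⟩).ne'
  rcases Nat.lt_or_ge n 8 with h7 | h8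
  · -- few points: unknown parameters
    refine run_iso run_free ⟨hreg, hprop, Or.inr (by omega), fun x y _ _ _ => Mg_le hreg x y⟩
      hconn hx₀ (fun bl u ng f zl args hR hb => badFree_sound hreg ?_ (p := a + b) (β := β) ?_
        hR hb)
    · intro x y hx hy
      have h1 := hW x x hx hx
      have h2 := hW y y hy hy
      rw [if_pos rfl, Mg_self hreg] at h1 h2
      exact_mod_cast h1.trans h2.symm
    · intro x y hxy hx hy
      have h1 := hW x y hx hy
      rw [if_neg hxy, sub_zero] at h1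
      exact h1
  by_cases hone : ∀ x y, x ≠ y → col x = false → col y = false → Mg H x y ≠ 1
  · exact run_iso run_nom1 ⟨hreg, hprop, Or.inl rfl, fun x y _ _ _ => Mg_le hreg x y⟩
      hconn hx₀ (fun bl u ng f zl args hR hb => badOne_sound hreg hone hR hb)
  push Not at hone
  obtain ⟨x₁, y₁, hxy₁, hx₁, hy₁, hM₁⟩ := hone
  -- a pair without common neighbour
  obtain ⟨y₀, hy₀, hM₀⟩ : ∃ y₀, col y₀ = false ∧ Mg H x₀ y₀ = 0 := by
    by_contra hcon
    push Not at hcon
    have h1 := sum_Mg hreg hprop x₀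
    rw [hx₀] at h1
    have hmem : x₀ ∈ Finset.univ.filter (fun v => col v = false) := by simp [hx₀]
    rw [← Finset.add_sum_erase _ _ hmem, Mg_self hreg] at h1
    have h2 : ∑ y ∈ (Finset.univ.filter (fun v => col v = false)).erase x₀, 1
        ≤ ∑ y ∈ (Finset.univ.filter (fun v => col v = false)).erase x₀, Mg H x₀ y := by
      apply Finset.sum_le_sum
      intro y hy
      have hy' := (Finset.mem_filter.1 (Finset.mem_of_mem_erase hy)).2
      exact Nat.one_le_iff_ne_zero.2 (hcon y hy')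
    rw [Finset.sum_const, smul_eq_mul, mul_one, Finset.card_erase_of_mem hmem, hn] at h2
    omega
  have hxy₀ : x₀ ≠ y₀ := by
    rintro rfl
    rw [Mg_self hreg] at hM₀
    omega
  -- the parameters are integers
  obtain ⟨B, hB⟩ : ∃ B, Wg H x₀ y₀ = B := ⟨_, rfl⟩
  obtain ⟨W1, hW1⟩ : ∃ W1, Wg H x₁ y₁ = W1 := ⟨_, rfl⟩
  obtain ⟨w0, hw0⟩ : ∃ w0, Wg H x₀ x₀ = w0 := ⟨_, rfl⟩
  have eB : β = B := by
    have h := hW x₀ y₀ hx₀ hy₀
    rw [if_neg hxy₀, hM₀, hB] at h
    push_cast at h
    linarith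
  have ep : a + b = (W1 : ℝ) - B := by
    have h := hW x₁ y₁ hx₁ hy₁
    rw [if_neg hxy₁, hM₁, hW1, eB] at h
    push_cast at h
    linarith
  have eq' : a * b = 3 * ((W1 : ℝ) - B) + B - w0 := by
    have h := hW x₀ x₀ hx₀ hx₀
    rw [if_pos rfl, Mg_self hreg, hw0, eB, ep] at h
    push_cast at h
    linarith
  have hnB : (n : ℝ) * B = 81 - 9 * ((W1 : ℝ) - B) + (3 * ((W1 : ℝ) - B) + B - w0) := by
    have h : (n : ℝ) * B = (9 - a) * (9 - b) := by rw [← eB]; exact hnβ
    linear_combination h - 9 * ep + eq'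
  have hlin : (n - 7) * B + 6 * W1 + w0 = 81 := by
    have : ((n - 7 : ℕ) : ℝ) = (n : ℝ) - 7 := by
      rw [Nat.cast_sub (by omega)]; norm_num
    have h : (((n - 7) * B + 6 * W1 + w0 : ℕ) : ℝ) = 81 := by
      push_cast [this]
      linarith
    exact_mod_cast h
  have hBpos : 1 ≤ B := by
    rw [Nat.one_le_iff_ne_zero]
    rintro rfl
    rw [eB, Nat.cast_zero, mul_zero] at hnβ
    rcases mul_eq_zero.1 hnβ.symm with h | h
    · exact ha (by linarith)
    · exact hb (by linarith)
  have hW17 : 7 ≤ W1 := by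
    rw [← hW1]
    exact Wg_adj hreg (by omega)
  obtain ⟨hw0a, hw0b, hw0c⟩ := Wg_self hreg x₀
  rw [hw0] at hw0a hw0b hw0c
  have hB24 : B ≤ (n - 7) * B := Nat.le_mul_of_pos_left _ (by omega)
  have hn31 : n - 7 ≤ (n - 7) * B := Nat.le_mul_of_pos_right _ (by omega)
  -- multiplicities
  obtain ⟨ma, hma⟩ := multiplicity hreg hprop hab hW hn hn0 hnβ
  obtain ⟨mb, hmb⟩ := multiplicity hreg hprop hab.symm (c := false) (β := β)
    (by
      intro x y hx hy
      rw [add_comm b a, mul_comm b a]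
      exact hW x y hx hy) hn hn0 (by rw [hnβ, mul_comm])
  have hab' : a - b ≠ 0 := sub_ne_zero.2 hab
  have hsum : ma + mb + 1 = n := by
    have h : (a - b) * ((ma : ℝ) + mb) = (a - b) * (n - 1) := by
      linear_combination hma - hmb
    have h' := mul_left_cancel₀ hab' h
    have h'' : ((ma + mb + 1 : ℕ) : ℝ) = n := by push_cast; linarith
    exact_mod_cast h''
  have hmaR : (mb : ℝ) = n - 1 - ma := by
    have : ((ma + mb + 1 : ℕ) : ℝ) = n := by exact_mod_cast hsum
    push_cast at this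
    linarith
  have hdisc : (((W1 : ℤ) - B) ^ 2 - 4 * (3 * ((W1 : ℤ) - B) + B - w0)) *
      (2 * (ma : ℤ) - (n - 1)) ^ 2 = (6 * (n : ℤ) - 18 - ((W1 : ℤ) - B) * (n - 1)) ^ 2 := by
    have h1 : (a - b) * (2 * (ma : ℝ) - (n - 1)) = 6 * n - 18 - ((W1 : ℝ) - B) * (n - 1) := by
      rw [← ep]
      have h2 : (b - a) * (n - 1 - (ma : ℝ)) = 3 * n - 9 - a * (n - 1) := by
        rw [← hmaR]; exact hmb
      linear_combination hma + h2
    have h2 : (a - b) ^ 2 = ((W1 : ℝ) - B) ^ 2 - 4 * (3 * ((W1 : ℝ) - B) + B - w0) := by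
      linear_combination ((a + b) + ((W1 : ℝ) - B)) * ep - 4 * eq'
    have h3 : (((W1 : ℝ) - B) ^ 2 - 4 * (3 * ((W1 : ℝ) - B) + B - w0)) *
        (2 * (ma : ℝ) - (n - 1)) ^ 2 = (6 * (n : ℝ) - 18 - ((W1 : ℝ) - B) * (n - 1)) ^ 2 := by
      rw [← h2, ← h1]
      ring
    exact_mod_cast h3
  have hmem : (n, w0, W1, B) ∈ plist := by
    refine arith_check n (List.mem_range.2 (by omega)) h8 w0 ?_ W1 (List.mem_range.2 (by omega))
      hW17 B (List.mem_range.2 (by omega)) hBpos hlin ma (List.mem_range.2 (by omega)) hdisc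
    simp only [List.mem_cons, List.not_mem_nil, or_false]
    omega
  -- the identity with natural parameters
  have hWn : ∀ p : ℕ, p + B = W1 → ∀ x y, col x = false → col y = false →
      Wg H x y = if x = y then w0 else p * Mg H x y + B := by
    intro p hp x y hx hy
    have h := hW x y hx hy
    have hpR : (a + b : ℝ) = p := by
      rw [ep, ← hp]; push_cast; ring
    by_cases hxy : x = y
    · subst hxy
      rw [if_pos rfl]
      rw [if_pos rfl, Mg_self hreg] at h
      have h0 := hW x₀ x₀ hx₀ hx₀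
      rw [if_pos rfl, Mg_self hreg, hw0] at h0
      exact_mod_cast h.trans h0.symm
    · rw [if_neg hxy]
      rw [if_neg hxy, hpR, eB, sub_zero] at h
      exact_mod_cast h
  simp only [plist, List.mem_cons, List.not_mem_nil, or_false, Prod.mk.injEq] at hmem
  rcases hmem with ⟨rfl, rfl, rfl, rfl⟩ | ⟨rfl, rfl, rfl, rfl⟩ | ⟨rfl, rfl, rfl, rfl⟩ |
    ⟨rfl, rfl, rfl, rfl⟩ | ⟨rfl, rfl, rfl, rfl⟩ | ⟨rfl, rfl, rfl, rfl⟩ | ⟨rfl, rfl, rfl, rfl⟩ |
    ⟨rfl, rfl, rfl, rfl⟩ | ⟨rfl, rfl, rfl, rfl⟩ | ⟨rfl, rfl, rfl, rfl⟩ | ⟨rfl, rfl, rfl, rfl⟩ |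
    ⟨rfl, rfl, rfl, rfl⟩ | ⟨rfl, rfl, rfl, rfl⟩
  · exact classify_param hreg hconn hprop hx₀ hn (hWn 4 (by norm_num)) (by norm_num) run_c8a
  · exact classify_param hreg hconn hprop hx₀ hn (hWn 6 (by norm_num)) (by norm_num) run_c8b
  · exact classify_param hreg hconn hprop hx₀ hn (hWn 3 (by norm_num)) (by norm_num) run_c9a
  · exact classify_param hreg hconn hprop hx₀ hn (hWn 0 (by norm_num)) (by norm_num) run_c9b
  · exact classify_param hreg hconn hprop hx₀ hn (hWn 6 (by norm_num)) (by norm_num) run_c9c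
  · exact classify_param hreg hconn hprop hx₀ hn (hWn 5 (by norm_num)) (by norm_num) run_c10a
  · exact classify_param hreg hconn hprop hx₀ hn (hWn 4 (by norm_num)) (by norm_num) run_c10b
  · exact classify_param hreg hconn hprop hx₀ hn (hWn 5 (by norm_num)) (by norm_num) run_c13a
  · exact classify_param hreg hconn hprop hx₀ hn (hWn 5 (by norm_num)) (by norm_num) run_c13b
  · exact classify_param hreg hconn hprop hx₀ hn (hWn 4 (by norm_num)) (by norm_num) run_c15
  · exact classify_param hreg hconn hprop hx₀ hn (hWn 6 (by norm_num)) (by norm_num) run_c16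
  · exact classify_param hreg hconn hprop hx₀ hn (hWn 5 (by norm_num)) (by norm_num) run_c18
  · exact classify_param hreg hconn hprop hx₀ hn (hWn 6 (by norm_num)) (by norm_num) run_c27

/-- A connected cubic bipartite graph whose squared eigenvalues are among `9, a, b` is one of the
thirteen graphs. -/
theorem classify (hreg : ∀ v, (H.neighborFinset v).card = 3) (hconn : H.Connected)
    {col : V → Bool} (hprop : ∀ v w, H.Adj v w → col v ≠ col w)
    {a b : ℝ}
    (hs : ∀ μ ∈ spectrum ℝ (H.adjMatrix ℝ), μ ^ 2 = 9 ∨ μ ^ 2 = a ∨ μ ^ 2 = b) :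
    ∃ c ∈ codes, Nonempty (lcf c.1 c.2 ≃g H) := by
  -- a vertex of the first colour
  obtain ⟨x₀, hx₀⟩ : ∃ x₀, col x₀ = false := by
    obtain ⟨v⟩ := hconn.nonempty
    cases hv : col v with
    | false => exact ⟨v, hv⟩
    | true =>
      obtain ⟨w, hw⟩ := Finset.card_pos.1 (by rw [hreg v]; norm_num : 0 < (H.neighborFinset v).card)
      rw [SimpleGraph.mem_neighborFinset] at hw
      have := hprop _ _ hw
      rw [hv] at this
      exact ⟨w, by simpa using this.symm⟩
  -- normalise the two values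
  obtain ⟨a', b', hab, ha, hb, himp⟩ : ∃ a' b' : ℝ, a' ≠ b' ∧ a' ≠ 9 ∧ b' ≠ 9 ∧
      ∀ t : ℝ, (t = 9 ∨ t = a ∨ t = b) → (t = 9 ∨ t = a' ∨ t = b') := by
    by_cases ha : a = 9
    · by_cases hb : b = 9
      · exact ⟨10, 11, by norm_num, by norm_num, by norm_num, by
          rintro t (h | h | h) <;> left <;> linarith⟩
      · refine ⟨|b| + 10, b, ?_, ?_, hb, ?_⟩
        · have := le_abs_self b
          intro h; linarith
        · have := abs_nonneg b
          intro h; linarith
        · rintro t (h | h | h)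
          · exact Or.inl h
          · exact Or.inl (h.trans ha)
          · exact Or.inr (Or.inr h)
    · by_cases hb : b = 9
      · refine ⟨a, |a| + 10, ?_, ha, ?_, ?_⟩
        · have := le_abs_self a
          intro h; linarith
        · have := abs_nonneg a
          intro h; linarith
        · rintro t (h | h | h)
          · exact Or.inl h
          · exact Or.inr (Or.inl h)
          · exact Or.inl (h.trans hb)
      · by_cases hab : a = b
        · refine ⟨a, |a| + 10, ?_, ha, ?_, ?_⟩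
          · have := le_abs_self a
            intro h; linarith
          · have := abs_nonneg a
            intro h; linarith
          · rintro t (h | h | h)
            · exact Or.inl h
            · exact Or.inr (Or.inl h)
            · exact Or.inr (Or.inl (h.trans hab.symm))
        · exact ⟨a, b, hab, ha, hb, fun t h => h⟩
  exact classify_aux hreg hconn hprop hx₀ hab ha hb (fun μ hμ => himp _ (hs μ hμ))

end classify

end Pool.Agent.H.MP_5e604b_co
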