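import Pool.Agent.H.MP_5e604b_co.Tables

/-!
Spectra of the thirteen graphs.
-/

namespace Pool.Agent.H.MP_5e604b_co

open Matrix Polynomial

lemma codes_pos : ∀ c ∈ codes, 3 < c.1 := by decide

theorem Sq_two {c : ℕ × List ℤ} {p q β : ℕ} (h : (c, p, q, β) ∈ List.zip codes pars)
    (hβ : β ≠ 0) {a b : ℝ} (hab : a + b = p) (hab' : a * b = q) {y z : ℕ}
    (hy : y ≠ 0 ∧ y < c.1 ∧ y % 2 = 0) (hz : z ≠ 0 ∧ z < c.1 ∧ z % 2 = 0)
    (hM : Ml (toTgt c) 0 y ≠ Ml (toTgt c) 0 z) : Sq (lcf c.1 c.2) = {9, a, b} := by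
  have hc : c ∈ codes := (List.of_mem_zip h).1
  have hN : 0 < c.1 := by have := codes_pos c hc; omega
  have : Nonempty (Fin c.1) := ⟨⟨0, hN⟩⟩
  have hpar : ∀ w (hw : w < c.1), w % 2 = 0 → par (⟨0, hN⟩ : Fin c.1) = par (⟨w, hw⟩ : Fin c.1) := by
    intro w hw h0
    unfold par
    rw [decide_eq_decide]
    simp only
    omega
  refine Sq_eq_two (col := par) (β := (β : ℝ)) (reg_codes c hc) (par_proper hc)
    (by exact_mod_cast hβ) ?_
    (x := ⟨0, hN⟩) (y := ⟨y, hy.2.1⟩) (x' := ⟨0, hN⟩) (y' := ⟨z, hz.2.1⟩) ?_ ?_ ?_ ?_ ?_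
  · intro x y hxy
    rw [hab, hab']
    exact hW_lcf h x y hxy
  · intro h'
    exact hy.1 (congrArg Fin.val h').symm
  · intro h'
    exact hz.1 (congrArg Fin.val h').symm
  · exact hpar _ _ hy.2.2
  · exact hpar _ _ hz.2.2
  · rw [Mg_lcf hc, Mg_lcf hc]
    exact hM

theorem Sq_one {c : ℕ × List ℤ} {p q β : ℕ} (h : (c, p, q, β) ∈ List.zip codes pars)
    {a : ℝ} (hab : a + a = p) (hab' : a * a = q) {y : ℕ}
    (hy : y ≠ 0 ∧ y < c.1) (hM : Ml (toTgt c) 0 y ≠ 0) : Sq (lcf c.1 c.2) = {9, a} := by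
  have hc : c ∈ codes := (List.of_mem_zip h).1
  have hN : 0 < c.1 := by have := codes_pos c hc; omega
  have : Nonempty (Fin c.1) := ⟨⟨0, hN⟩⟩
  refine Sq_eq_one (col := par) (β := (β : ℝ)) (reg_codes c hc) (par_proper hc) ?_
    (x := ⟨0, hN⟩) (y := ⟨y, hy.2⟩) ?_ ?_
  · intro x y hxy
    rw [hab, hab']
    exact hW_lcf h x y hxy
  · intro h'
    exact hy.1 (congrArg Fin.val h').symm
  · rw [Mg_lcf hc]
    exact hM

/-! ### Squared eigenvalues of each graph -/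

lemma Sq_K33 : Sq (lcf 6 [3, -3]) = {9, 0} :=
  Sq_one (c := (6, [3, -3])) (p := 0) (q := 0) (β := 27) (y := 2) (by decide) (by norm_num)
    (by norm_num) (by decide) (by decide)

lemma Sq_Q3 : Sq (lcf 8 [3, -3]) = {9, 1} :=
  Sq_one (c := (8, [3, -3])) (p := 2) (q := 1) (β := 16) (y := 2) (by decide) (by norm_num)
    (by norm_num) (by decide) (by decide)

lemma Sq_Heawood : Sq (lcf 14 [5, -5]) = {9, 2} :=
  Sq_one (c := (14, [5, -5])) (p := 4) (q := 4) (β := 7) (y := 2) (by decide) (by norm_num)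
    (by norm_num) (by decide) (by decide)

lemma sqrt5 : √5 * √5 = (5 : ℝ) := Real.mul_self_sqrt (by norm_num)
lemma sqrt13 : √13 * √13 = (13 : ℝ) := Real.mul_self_sqrt (by norm_num)

lemma Sq_M10 : Sq (lcf 10 [3, -3]) = {9, (3 + √5) / 2, (3 - √5) / 2} :=
  Sq_two (c := (10, [3, -3])) (p := 3) (q := 1) (β := 11) (y := 2) (z := 4) (by decide)
    (by norm_num) (by push_cast; ring) (by push_cast; linear_combination -(1 / 4 : ℝ) * sqrt5)
    (by decide) (by decide) (by decide)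


lemma Sq_Franklin : Sq (lcf 12 [5, -5]) = {9, 3, 1} :=
  Sq_two (c := (12, [5, -5])) (p := 4) (q := 3) (β := 8) (y := 2) (z := 6) (by decide)
    (by norm_num) (by norm_num) (by norm_num) (by decide) (by decide) (by decide)

lemma Sq_MK : Sq (lcf 16 [5, -5]) = {9, 3, 1} :=
  Sq_two (c := (16, [5, -5])) (p := 4) (q := 3) (β := 6) (y := 2) (z := 8) (by decide)
    (by norm_num) (by norm_num) (by norm_num) (by decide) (by decide) (by decide)

lemma Sq_H8 : Sq (lcf 16 [7, -7]) = {9, 5, 1} :=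
  Sq_two (c := (16, [7, -7])) (p := 6) (q := 5) (β := 4) (y := 2) (z := 4) (by decide)
    (by norm_num) (by norm_num) (by norm_num) (by decide) (by decide) (by decide)

lemma Sq_Pappus : Sq (lcf 18 [5, 7, -7, 7, -7, -5]) = {9, 3, 0} :=
  Sq_two (c := (18, [5, 7, -7, 7, -7, -5])) (p := 3) (q := 0) (β := 6) (y := 2) (z := 10)
    (by decide) (by norm_num) (by norm_num) (by norm_num) (by decide) (by decide) (by decide)

lemma Sq_Desargues : Sq (lcf 20 [5, -5, 9, -9]) = {9, 4, 1} :=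
  Sq_two (c := (20, [5, -5, 9, -9])) (p := 5) (q := 4) (β := 4) (y := 2) (z := 8)
    (by decide) (by norm_num) (by norm_num) (by norm_num) (by decide) (by decide) (by decide)

lemma Sq_Mate : Sq (lcf 20 [-9, -7, 7, -7, -5, 5, -9, 5, 7, -7, -5, 9, -5, 5, 7, -7, 7, 9, -5, 5])
    = {9, 4, 1} :=
  Sq_two (c := (20, [-9, -7, 7, -7, -5, 5, -9, 5, 7, -7, -5, 9, -5, 5, 7, -7, 7, 9, -5, 5]))
    (p := 5) (q := 4) (β := 4) (y := 2) (z := 6)
    (by decide) (by norm_num) (by norm_num) (by norm_num) (by decide) (by decide) (by decide)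

lemma Sq_F26A : Sq (lcf 26 [7, -7]) = {9, (5 + √13) / 2, (5 - √13) / 2} :=
  Sq_two (c := (26, [7, -7])) (p := 5) (q := 3) (β := 3) (y := 2) (z := 4) (by decide)
    (by norm_num) (by push_cast; ring) (by push_cast; linear_combination -(1 / 4 : ℝ) * sqrt13)
    (by decide) (by decide) (by decide)

lemma Sq_TC : Sq (lcf 30 [-13, -9, 7, -7, 9, 13]) = {9, 4, 0} :=
  Sq_two (c := (30, [-13, -9, 7, -7, 9, 13])) (p := 4) (q := 0) (β := 3) (y := 2) (z := 4)
    (by decide) (by norm_num) (by norm_num) (by norm_num) (by decide) (by decide) (by decide)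

lemma Sq_Dyck : Sq (lcf 32 [5, -5, 13, -13]) = {9, 5, 1} :=
  Sq_two (c := (32, [5, -5, 13, -13])) (p := 6) (q := 5) (β := 2) (y := 2) (z := 8)
    (by decide) (by norm_num) (by norm_num) (by norm_num) (by decide) (by decide) (by decide)

end Pool.Agent.H.MP_5e604b_co
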