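import Pool.Agent.H.MP_5e604b_co.Comps
import Pool.Agent.H.MP_5e604b_co.Spectra
import Pool.Agent.H.MP_5e604b_co.Params

/-!
Assembling the classification.
-/

namespace Pool.Agent.H.MP_5e604b_co

set_option linter.unusedSectionVars false

def code : Fin 13 → ℕ × List ℤ :=
  ![(6, [3, -3]), (8, [3, -3]), (10, [3, -3]), (12, [5, -5]), (14, [5, -5]), (16, [5, -5]),
    (16, [7, -7]), (18, [5, 7, -7, 7, -7, -5]), (20, [5, -5, 9, -9]),
    (20, [-9, -7, 7, -7, -5, 5, -9, 5, 7, -7, -5, 9, -5, 5, 7, -7, 7, 9, -5, 5]),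
    (26, [7, -7]), (30, [-13, -9, 7, -7, 9, 13]), (32, [5, -5, 13, -13])]

lemma mem_codes {c : ℕ × List ℤ} (h : c ∈ codes) : ∃ k, code k = c := by
  have : ∀ c ∈ codes, ∃ k, code k = c := by decide
  exact this c h

/-- the possible squared eigenvalues, in increasing order -/
noncomputable def val : Fin 11 → ℝ :=
  ![0, (3 - √5) / 2, (5 - √13) / 2, 1, 2, (3 + √5) / 2, 3, 4, (5 + √13) / 2, 5, 9]

/-- the squared eigenvalues of the graphs, as labels -/
def U : Fin 13 → Finset (Fin 11) :=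
  ![{0, 10}, {3, 10}, {1, 5, 10}, {3, 6, 10}, {4, 10}, {3, 6, 10}, {3, 9, 10}, {0, 6, 10},
    {3, 7, 10}, {3, 7, 10}, {2, 8, 10}, {0, 7, 10}, {3, 9, 10}]

lemma val_strictMono : StrictMono val := by
  have h1 : (2.2 : ℝ) < √5 := Real.lt_sqrt_of_sq_lt (by norm_num)
  have h2 : √5 < (2.3 : ℝ) := (Real.sqrt_lt' (by norm_num)).2 (by norm_num)
  have h3 : (3.6 : ℝ) < √13 := Real.lt_sqrt_of_sq_lt (by norm_num)
  have h4 : √13 < (3.7 : ℝ) := (Real.sqrt_lt' (by norm_num)).2 (by norm_num)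
  rw [Fin.strictMono_iff_lt_succ]
  intro i
  fin_cases i
  · change (0 : ℝ) < (3 - √5) / 2; linarith
  · change (3 - √5) / 2 < (5 - √13) / 2; linarith
  · change (5 - √13) / 2 < 1; linarith
  · change (1 : ℝ) < 2; norm_num
  · change 2 < (3 + √5) / 2; linarith
  · change (3 + √5) / 2 < 3; linarith
  · change (3 : ℝ) < 4; norm_num
  · change 4 < (5 + √13) / 2; linarith
  · change (5 + √13) / 2 < 5; linarith
  · change (5 : ℝ) < 9; norm_num

lemma val_inj : Function.Injective val := val_strictMono.injective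

lemma image2 {i : Fin 11} {x : ℝ} (h : val i = x) :
    val '' (({i, 10} : Finset (Fin 11)) : Set (Fin 11)) = {9, x} := by
  have h9 : val 10 = 9 := rfl
  rw [Finset.coe_insert, Finset.coe_singleton, Set.image_pair, h, h9, Set.pair_comm]

lemma image3 {i j : Fin 11} {x y : ℝ} (h : val i = x) (h' : val j = y) :
    val '' (({i, j, 10} : Finset (Fin 11)) : Set (Fin 11)) = {9, x, y} := by
  have h9 : val 10 = 9 := rfl
  rw [Finset.coe_insert, Finset.coe_insert, Finset.coe_singleton, Set.image_insert_eq,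
    Set.image_pair, h, h', h9]
  ext t
  simp only [Set.mem_insert_iff, Set.mem_singleton_iff]
  tauto

lemma swap3 (x y z : ℝ) : ({x, y, z} : Set ℝ) = {x, z, y} := by
  rw [Set.pair_comm y z]

lemma Sq_code (k : Fin 13) :
    Sq (lcf (code k).1 (code k).2) = val '' (U k : Set (Fin 11)) := by
  match k with
  | 0 => exact Sq_K33.trans (image2 (i := 0) rfl).symm
  | 1 => exact Sq_Q3.trans (image2 (i := 3) rfl).symm
  | 2 => exact (Sq_M10.trans (swap3 _ _ _)).trans (image3 (i := 1) (j := 5) rfl rfl).symm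
  | 3 => exact (Sq_Franklin.trans (swap3 _ _ _)).trans (image3 (i := 3) (j := 6) rfl rfl).symm
  | 4 => exact Sq_Heawood.trans (image2 (i := 4) rfl).symm
  | 5 => exact (Sq_MK.trans (swap3 _ _ _)).trans (image3 (i := 3) (j := 6) rfl rfl).symm
  | 6 => exact (Sq_H8.trans (swap3 _ _ _)).trans (image3 (i := 3) (j := 9) rfl rfl).symm
  | 7 => exact (Sq_Pappus.trans (swap3 _ _ _)).trans (image3 (i := 0) (j := 6) rfl rfl).symm
  | 8 => exact (Sq_Desargues.trans (swap3 _ _ _)).trans (image3 (i := 3) (j := 7) rfl rfl).symm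
  | 9 => exact (Sq_Mate.trans (swap3 _ _ _)).trans (image3 (i := 3) (j := 7) rfl rfl).symm
  | 10 => exact (Sq_F26A.trans (swap3 _ _ _)).trans (image3 (i := 2) (j := 8) rfl rfl).symm
  | 11 => exact (Sq_TC.trans (swap3 _ _ _)).trans (image3 (i := 0) (j := 7) rfl rfl).symm
  | 12 => exact (Sq_Dyck.trans (swap3 _ _ _)).trans (image3 (i := 3) (j := 9) rfl rfl).symm

/-- the types inside `X` are in the list `L` -/
def Ok (X : Finset (Fin 11)) (L : List (Fin 13)) : Prop := ∀ k, U k ⊆ X → k ∈ L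

instance (X : Finset (Fin 11)) (L : List (Fin 13)) : Decidable (Ok X L) :=
  inferInstanceAs (Decidable (∀ k, U k ⊆ X → k ∈ L))

/-- a type inside `X` which contains `i` -/
def In (X : Finset (Fin 11)) (i : Fin 11) (k : Fin 13) : Prop := U k ⊆ X ∧ i ∈ U k

instance (X : Finset (Fin 11)) (i : Fin 11) (k : Fin 13) : Decidable (In X i k) :=
  inferInstanceAs (Decidable (U k ⊆ X ∧ i ∈ U k))

set_option synthInstance.maxSize 2000 in
lemma comb5 : ∀ j : Fin 11, (0 < j ∧ j < 10) → ∀ k₁ : Fin 13, In {0, j, 10} 0 k₁ →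
    ∀ k₂ : Fin 13, In {0, j, 10} j k₂ →
    (k₂ ∈ [7] ∧ Ok {0, j, 10} [0, 7]) ∨
    (k₂ ∈ [11] ∧ Ok {0, j, 10} [0, 11]) ∨
    (k₁ ∈ [0] ∧ k₂ ∈ [1] ∧ Ok {0, j, 10} [0, 1] ∧ Ok {0, j, 10} [1, 0]) ∨
    (k₁ ∈ [0] ∧ k₂ ∈ [4] ∧ Ok {0, j, 10} [0, 4] ∧ Ok {0, j, 10} [4, 0]) := by
  decide +kernel

set_option synthInstance.maxSize 2000 in
lemma comb6 : ∀ i j : Fin 11, (0 < i ∧ i < j ∧ j < 10) → ∀ k₁ : Fin 13, In {i, j, 10} i k₁ →
    ∀ k₂ : Fin 13, In {i, j, 10} j k₂ →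
    (k₂ ∈ [3, 5] ∧ Ok {i, j, 10} [1, 3, 5]) ∨
    (k₂ ∈ [8, 9] ∧ Ok {i, j, 10} [1, 8, 9]) ∨
    (k₂ ∈ [6, 12] ∧ Ok {i, j, 10} [1, 6, 12]) ∨
    (k₁ ∈ [1] ∧ k₂ ∈ [4] ∧ Ok {i, j, 10} [1, 4] ∧ Ok {i, j, 10} [4, 1]) ∨
    (k₂ ∈ [2] ∧ Ok {i, j, 10} [2]) ∨
    (k₂ ∈ [10] ∧ Ok {i, j, 10} [10]) := by
  decide +kernel

section main

variable {V : Type*}

/-- Every component of `G` is one of the graphs of `A ++ B`, and some component is one of `B`. -/
def Built (G : SimpleGraph V) (A B : List (ℕ × List ℤ)) : Prop :=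
  (∀ c : G.ConnectedComponent, ∃ l ∈ A ++ B, Nonempty (G.induce c.supp ≃g lcf l.1 l.2)) ∧
    ∃ c : G.ConnectedComponent, ∃ l ∈ B, Nonempty (G.induce c.supp ≃g lcf l.1 l.2)

variable [Fintype V] [DecidableEq V] {G : SimpleGraph V} [DecidableRel G.Adj]

open Classical in
/-- squared eigenvalues of a component -/
noncomputable def SqC (G : SimpleGraph V) [DecidableRel G.Adj] (c : G.ConnectedComponent) :
    Set ℝ := Sq (G.induce c.supp)

open Classical in
lemma SqC_eq {c : G.ConnectedComponent} {k : Fin 13}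
    (e : G.induce c.supp ≃g lcf (code k).1 (code k).2) :
    SqC G c = val '' (U k : Set (Fin 11)) := by
  unfold SqC
  rw [Sq_iso e, ← Sq_code k]

open Classical in
lemma mem_Sq_iff {t : ℝ} : t ∈ Sq G ↔ ∃ c : G.ConnectedComponent, t ∈ SqC G c := by
  constructor
  · rintro ⟨μ, hμ, rfl⟩
    obtain ⟨c, hc⟩ := spec_comp hμ
    exact ⟨c, μ, hc, rfl⟩
  · rintro ⟨c, μ, hμ, rfl⟩
    exact ⟨μ, comp_spec c hμ, rfl⟩

lemma built_sq {A B A' B' : List (Fin 13)} (h : Built G (A.map code) (B.map code))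
    (h' : Built G (A'.map code) (B'.map code)) (X : Finset (Fin 11))
    (hA : ∀ k ∈ A ++ B, U k ⊆ X) (hB : ∀ k ∈ B, ∀ k' ∈ B', X ⊆ U k ∪ U k') :
    Sq G = val '' (X : Set (Fin 11)) := by
  ext t
  rw [mem_Sq_iff]
  constructor
  · rintro ⟨c, hc⟩
    obtain ⟨l, hl, ⟨e⟩⟩ := h.1 c
    rw [← List.map_append, List.mem_map] at hl
    obtain ⟨k, hk, rfl⟩ := hl
    rw [SqC_eq e] at hc
    obtain ⟨i, hi, rfl⟩ := hc
    exact ⟨i, hA k hk hi, rfl⟩
  · rintro ⟨i, hi, rfl⟩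
    obtain ⟨c, l, hl, ⟨e⟩⟩ := h.2
    obtain ⟨c', l', hl', ⟨e'⟩⟩ := h'.2
    rw [List.mem_map] at hl hl'
    obtain ⟨k, hk, rfl⟩ := hl
    obtain ⟨k', hk', rfl⟩ := hl'
    rcases Finset.mem_union.1 (hB k hk k' hk' hi) with h1 | h1
    · exact ⟨c, by rw [SqC_eq e]; exact ⟨i, h1, rfl⟩⟩
    · exact ⟨c', by rw [SqC_eq e']; exact ⟨i, h1, rfl⟩⟩

lemma ncard_image (X : Finset (Fin 11)) : (val '' (X : Set (Fin 11))).ncard = X.card := by
  rw [Set.ncard_image_of_injective _ val_inj, Set.ncard_coe_finset]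

lemma zero_mem_image (X : Finset (Fin 11)) : (0 : ℝ) ∈ val '' (X : Set (Fin 11)) ↔ 0 ∈ X := by
  have h0 : val 0 = 0 := rfl
  constructor
  · rintro ⟨i, hi, h⟩
    rw [← h0] at h
    rwa [val_inj h] at hi
  · intro h
    exact ⟨0, h, h0⟩

/-- types of the components when there are three squared eigenvalues -/
lemma types (hreg : ∀ v, (G.neighborFinset v).card = 3) {col : V → Bool}
    (hprop : ∀ v w, G.Adj v w → col v ≠ col w) (h3 : (Sq G).ncard = 3) :
    ∃ i j : Fin 11, i < j ∧ j < 10 ∧ ((0 : ℝ) ∈ Sq G ↔ i = 0) ∧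
      (∀ c : G.ConnectedComponent, ∃ k, U k ⊆ {i, j, 10} ∧
        Nonempty (G.induce c.supp ≃g lcf (code k).1 (code k).2)) ∧
      (∃ c : G.ConnectedComponent, ∃ k, U k ⊆ {i, j, 10} ∧ i ∈ U k ∧
        Nonempty (G.induce c.supp ≃g lcf (code k).1 (code k).2)) ∧
      (∃ c : G.ConnectedComponent, ∃ k, U k ⊆ {i, j, 10} ∧ j ∈ U k ∧
        Nonempty (G.induce c.supp ≃g lcf (code k).1 (code k).2)) := by
  classical
  -- nonempty
  have hne : Nonempty V := by
    by_contra hcon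
    rw [not_nonempty_iff] at hcon
    have : Sq G = ∅ := by
      ext t
      constructor
      · rintro ⟨μ, hμ, -⟩
        rw [mem_spec] at hμ
        obtain ⟨φ, h0, -⟩ := hμ
        exact h0 (funext fun v => (hcon.false v).elim)
      · intro h; exact absurd h (Set.notMem_empty t)
    rw [this, Set.ncard_empty] at h3
    omega
  have h9 : (9 : ℝ) ∈ Sq G := nine_mem hreg
  obtain ⟨a, b, ha, hb, hab, hS⟩ : ∃ a b : ℝ, a ≠ 9 ∧ b ≠ 9 ∧ a ≠ b ∧ Sq G = {9, a, b} := by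
    obtain ⟨x, y, z, hxy, hxz, hyz, hS⟩ := Set.ncard_eq_three.1 h3
    rw [hS] at h9
    rcases h9 with h | h | h
    · exact ⟨y, z, by rw [h]; exact hxy.symm, by rw [h]; exact hxz.symm, hyz, by rw [hS, h]⟩
    · exact ⟨x, z, by rw [h]; exact hxy, by rw [h]; exact hyz.symm, hxz, by
        rw [hS, h]; exact Set.insert_comm _ _ _⟩
    · have h' : (9 : ℝ) = z := h
      exact ⟨x, y, by rw [h']; exact hxz, by rw [h']; exact hyz, hxy, by
        rw [hS, h', Set.insert_comm z x, Set.pair_comm z y]⟩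
  -- every component is classified
  have hcl : ∀ c : G.ConnectedComponent, ∃ k,
      Nonempty (G.induce c.supp ≃g lcf (code k).1 (code k).2) := by
    intro c
    have hroot : ∀ μ ∈ spectrum ℝ ((G.induce c.supp).adjMatrix ℝ),
        μ ^ 2 = 9 ∨ μ ^ 2 = a ∨ μ ^ 2 = b := by
      intro μ hμ
      have : μ ^ 2 ∈ Sq G := ⟨μ, comp_spec c hμ, rfl⟩
      rw [hS] at this
      exact this
    obtain ⟨l, hl, ⟨e⟩⟩ := classify (H := G.induce c.supp) (col := fun v => col v.val)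
      (fun v => (comp_card c v).trans (hreg v.val)) c.connected_toSimpleGraph
      (fun v w h => hprop _ _ h) hroot
    obtain ⟨k, rfl⟩ := mem_codes hl
    exact ⟨k, ⟨e.symm⟩⟩
  choose K hK using hcl
  have hsub : ∀ c, ∀ l ∈ U (K c), val l ∈ Sq G := by
    intro c l hl
    rw [mem_Sq_iff]
    obtain ⟨e⟩ := hK c
    exact ⟨c, by rw [SqC_eq e]; exact ⟨l, hl, rfl⟩⟩
  have hex : ∀ t ∈ Sq G, ∃ i, val i = t ∧ ∃ c, i ∈ U (K c) := by
    intro t ht
    rw [mem_Sq_iff] at ht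
    obtain ⟨c, hc⟩ := ht
    obtain ⟨e⟩ := hK c
    rw [SqC_eq e] at hc
    obtain ⟨i, hi, h⟩ := hc
    exact ⟨i, h, c, hi⟩
  obtain ⟨i, rfl, c₁, hc₁⟩ := hex a (by rw [hS]; exact Or.inr (Or.inl rfl))
  obtain ⟨j, rfl, c₂, hc₂⟩ := hex b (by rw [hS]; exact Or.inr (Or.inr rfl))
  have hv9 : val 10 = 9 := rfl
  have hv0 : val 0 = 0 := rfl
  have hi10 : i ≠ 10 := fun h => ha (by rw [h, hv9])
  have hj10 : j ≠ 10 := fun h => hb (by rw [h, hv9])
  have hij : i ≠ j := fun h => hab (by rw [h])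
  have hsub' : ∀ c, U (K c) ⊆ {i, j, 10} := by
    intro c l hl
    have := hsub c l hl
    rw [hS, ← hv9] at this
    simp only [Finset.mem_insert, Finset.mem_singleton]
    rcases this with h | h | h
    · exact Or.inr (Or.inr (val_inj h))
    · exact Or.inl (val_inj h)
    · exact Or.inr (Or.inl (val_inj h))
  have h0 : (0 : ℝ) ∈ Sq G ↔ i = 0 ∨ j = 0 := by
    rw [hS, ← hv9, ← hv0]
    constructor
    · rintro (h | h | h)
      · exact absurd (val_inj h) (by decide)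
      · exact Or.inl (val_inj h).symm
      · exact Or.inr (val_inj h).symm
    · rintro (h | h)
      · exact Or.inr (Or.inl (by rw [h]))
      · exact Or.inr (Or.inr (by rw [h]; rfl))
  rcases lt_or_gt_of_ne hij with h | h
  · refine ⟨i, j, h, by omega, ?_, fun c => ⟨K c, hsub' c, hK c⟩,
      ⟨c₁, K c₁, hsub' c₁, hc₁, hK c₁⟩, ⟨c₂, K c₂, hsub' c₂, hc₂, hK c₂⟩⟩
    rw [h0]
    omega
  · have hperm : ({j, i, 10} : Finset (Fin 11)) = {i, j, 10} := Finset.insert_comm _ _ _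
    refine ⟨j, i, h, by omega, ?_, ?_⟩
    · rw [h0]
      omega
    · rw [hperm]
      exact ⟨fun c => ⟨K c, hsub' c, hK c⟩,
        ⟨c₂, K c₂, hsub' c₂, hc₂, hK c₂⟩, ⟨c₁, K c₁, hsub' c₁, hc₁, hK c₁⟩⟩

lemma built_of {X : Finset (Fin 11)} {A B : List (Fin 13)}
    (hall : ∀ c : G.ConnectedComponent, ∃ k, U k ⊆ X ∧
      Nonempty (G.induce c.supp ≃g lcf (code k).1 (code k).2))
    (hX : ∀ k, U k ⊆ X → k ∈ A ++ B) {c : G.ConnectedComponent} {k : Fin 13}
    (hk : k ∈ B) (hc : Nonempty (G.induce c.supp ≃g lcf (code k).1 (code k).2)) :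
    Built G (A.map code) (B.map code) := by
  refine ⟨?_, c, code k, List.mem_map_of_mem hk, hc⟩
  intro c'
  obtain ⟨k', hk', h⟩ := hall c'
  exact ⟨code k', by rw [← List.map_append]; exact List.mem_map_of_mem (hX k' hk'), h⟩

end main

end Pool.Agent.H.MP_5e604b_co
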