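import Pool.Agent.H.MP_5e604b_co.Engine

/-!
Linear algebra for connected cubic bipartite graphs whose squared adjacency matrix has few
eigenvalues.
-/

namespace Pool.Agent.H.MP_5e604b_co

open Matrix Polynomial

section general

variable {V : Type*} [Fintype V] [DecidableEq V]

/-- A polynomial vanishing on the spectrum of a real symmetric matrix annihilates it. -/
lemma aeval_eq_zero {A : Matrix V V ℝ} (hA : A.IsHermitian) {p : ℝ[X]}
    (hp : ∀ μ ∈ spectrum ℝ A, p.eval μ = 0) : aeval A p = 0 := by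
  have h1 := hA.spectral_theorem
  set Φ := (Unitary.conjStarAlgAut ℝ (Matrix V V ℝ)) hA.eigenvectorUnitary with hΦ
  have h2 : aeval A p = Φ (aeval (Matrix.diagonal (RCLike.ofReal ∘ hA.eigenvalues)) p) := by
    conv_lhs => rw [h1]
    exact Polynomial.aeval_algHom_apply Φ _ p
  rw [h2]
  have h3 : aeval (Matrix.diagonal ((RCLike.ofReal ∘ hA.eigenvalues : V → ℝ))) p = 0 := by
    have h4 : (Matrix.diagonal ((RCLike.ofReal ∘ hA.eigenvalues : V → ℝ)))
        = Matrix.diagonalAlgHom ℝ (hA.eigenvalues) := rfl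
    rw [h4, Polynomial.aeval_algHom_apply]
    have h5 : aeval hA.eigenvalues p = (0 : V → ℝ) := by
      funext i
      have h6 : (aeval hA.eigenvalues p) i = (Pi.evalAlgHom ℝ (fun _ : V => ℝ) i)
          (aeval hA.eigenvalues p) := rfl
      rw [h6, ← Polynomial.aeval_algHom_apply]
      change aeval (hA.eigenvalues i) p = 0
      rw [Polynomial.coe_aeval_eq_eval]
      exact hp _ (hA.eigenvalues_mem_spectrum_real i)
    rw [h5, map_zero]
  rw [h3, map_zero]

/-- The trace of an idempotent real matrix is a natural number. -/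
lemma trace_idem {E : Matrix V V ℝ} (hE : E * E = E) : ∃ m : ℕ, E.trace = m := by
  have h1 : IsIdempotentElem (Matrix.toLin' E) := by
    unfold IsIdempotentElem
    rw [Module.End.mul_eq_comp, ← Matrix.toLin'_mul, hE]
  have h2 := LinearMap.IsProj.trace (LinearMap.IsIdempotentElem.isProj_range _ h1)
  rw [Matrix.trace_toLin'_eq] at h2
  exact ⟨_, h2⟩

end general

section graph

set_option linter.unusedSectionVars false

variable {V : Type*} [Fintype V] [DecidableEq V] (H : SimpleGraph V) [DecidableRel H.Adj]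

/-- the square of the adjacency matrix -/
noncomputable def sq : Matrix V V ℝ := H.adjMatrix ℝ * H.adjMatrix ℝ

lemma sq_apply (x y : V) : sq H x y = (Mg H x y : ℝ) := by
  unfold sq
  rw [SimpleGraph.adjMatrix_mul_apply, Mg_eq_sum, Nat.cast_sum]
  apply Finset.sum_congr rfl
  intro v _
  rw [SimpleGraph.adjMatrix_apply]
  by_cases h : H.Adj v y
  · rw [if_pos h, if_pos (by rwa [SimpleGraph.mem_neighborFinset]), Nat.cast_one]
  · rw [if_neg h, if_neg (by rwa [SimpleGraph.mem_neighborFinset]), Nat.cast_zero]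

lemma sq_sq_apply (x y : V) : (sq H * sq H) x y = (Wg H x y : ℝ) := by
  have h1 : sq H * sq H = H.adjMatrix ℝ * (sq H * H.adjMatrix ℝ) := by
    simp only [sq, Matrix.mul_assoc]
  rw [h1, SimpleGraph.adjMatrix_mul_apply, Wg, Nat.cast_sum]
  apply Finset.sum_congr rfl
  intro v _
  rw [SimpleGraph.mul_adjMatrix_apply, Nat.cast_sum]
  apply Finset.sum_congr rfl
  intro w _
  exact sq_apply H v w

lemma sq_symm (x y : V) : sq H x y = sq H y x := by
  rw [sq_apply, sq_apply, Mg_comm]

lemma isHermitian_adj : (H.adjMatrix ℝ).IsHermitian := by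
  have h := H.isSymm_adjMatrix (α := ℝ)
  rw [Matrix.IsHermitian, Matrix.conjTranspose_eq_transpose_of_trivial]
  exact h

variable {H}

/-- the matrix identity coming from the spectrum -/
lemma cubic_identity {a b : ℝ}
    (hs : ∀ μ ∈ spectrum ℝ (H.adjMatrix ℝ), μ ^ 2 = 9 ∨ μ ^ 2 = a ∨ μ ^ 2 = b) :
    (sq H - (9 : ℝ) • 1) * ((sq H - a • 1) * (sq H - b • 1)) = 0 := by
  have h := aeval_eq_zero (isHermitian_adj H)
    (p := (X ^ 2 - C 9) * ((X ^ 2 - C a) * (X ^ 2 - C b))) (by
      intro μ hμ
      simp only [eval_mul, eval_sub, eval_pow, eval_X, eval_C]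
      rcases hs μ hμ with h | h | h <;> rw [h] <;> ring)
  simp only [map_mul, map_sub, aeval_X, aeval_C, pow_two] at h
  rw [Algebra.algebraMap_eq_smul_one, Algebra.algebraMap_eq_smul_one,
    Algebra.algebraMap_eq_smul_one] at h
  exact h

/-- Maximum principle. -/
lemma const_of_harmonic (hreg : ∀ v, (H.neighborFinset v).card = 3) (hconn : H.Connected)
    {col : V → Bool} (hprop : ∀ v w, H.Adj v w → col v ≠ col w) {φ : V → ℝ}
    (hφ : ∀ x, ∑ u ∈ H.neighborFinset x, ∑ z ∈ H.neighborFinset u, φ z = 9 * φ x) {x y : V}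
    (hxy : col x = col y) : φ x = φ y := by
  -- a maximum on the colour class
  obtain ⟨m, hm, hmax⟩ := Finset.exists_max_image (Finset.univ.filter fun v => col v = col x) φ
    ⟨x, by simp⟩
  have hmc : col m = col x := (Finset.mem_filter.1 hm).2
  have hmax' : ∀ z, col z = col x → φ z ≤ φ m := fun z hz => hmax z (by simp [hz])
  have hstep : ∀ v, col v = col x → φ v = φ m → ∀ u, H.Adj v u → ∀ z, H.Adj u z →
      col z = col x ∧ φ z = φ m := by
    intro v hv hvm u hu z hz
    have hcolz : ∀ u, H.Adj v u → ∀ z, H.Adj u z → col z = col x := by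
      intro u hu z hz
      have h1 := hprop _ _ hu
      have h2 := hprop _ _ hz
      rw [← hv]
      revert h1 h2
      cases col v <;> cases col u <;> cases col z <;> simp
    refine ⟨hcolz u hu z hz, ?_⟩
    have h0 : ∑ u ∈ H.neighborFinset v, ∑ z ∈ H.neighborFinset u, (φ m - φ z) = 0 := by
      simp only [Finset.sum_sub_distrib, Finset.sum_const, hreg]
      rw [hφ v, hvm]
      simp only [nsmul_eq_mul]
      push_cast
      ring
    have hnn : ∀ u ∈ H.neighborFinset v, ∀ z ∈ H.neighborFinset u, 0 ≤ φ m - φ z := by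
      intro u hu z hz
      rw [SimpleGraph.mem_neighborFinset] at hu hz
      exact sub_nonneg.2 (hmax' z (hcolz u hu z hz))
    have h1 := (Finset.sum_eq_zero_iff_of_nonneg fun u hu =>
      Finset.sum_nonneg (hnn u hu)).1 h0 u (by rwa [SimpleGraph.mem_neighborFinset])
    have h2 := (Finset.sum_eq_zero_iff_of_nonneg
      (hnn u (by rwa [SimpleGraph.mem_neighborFinset]))).1 h1 z
      (by rwa [SimpleGraph.mem_neighborFinset])
    linarith
  have hall : ∀ v, (col v = col x ∧ φ v = φ m) ∨
      (∃ w, col w = col x ∧ φ w = φ m ∧ H.Adj w v) := by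
    intro v
    refine closed_univ hconn (S := {v | (col v = col x ∧ φ v = φ m) ∨
      (∃ w, col w = col x ∧ φ w = φ m ∧ H.Adj w v)}) (x₀ := m) (Or.inl ⟨hmc, rfl⟩) ?_ v
    rintro v (⟨h1, h2⟩ | ⟨w, h1, h2, h3⟩) z hz
    · exact Or.inr ⟨v, h1, h2, hz⟩
    · exact Or.inl (hstep w h1 h2 v h3 z hz)
  have hfin : ∀ v, col v = col x → φ v = φ m := by
    intro v hv
    rcases hall v with h | ⟨w, h1, -, h3⟩
    · exact h.2
    · exact absurd (h1.trans hv.symm) (hprop _ _ h3)
  rw [hfin x rfl, hfin y hxy.symm]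

lemma sq_eq_zero {col : V → Bool} (hprop : ∀ v w, H.Adj v w → col v ≠ col w) {x y : V}
    (hxy : col x ≠ col y) : sq H x y = 0 := by
  rw [sq_apply]
  have : Mg H x y = 0 := by
    unfold Mg
    rw [Finset.card_eq_zero, Finset.eq_empty_iff_forall_notMem]
    intro v hv
    rw [Finset.mem_inter, SimpleGraph.mem_neighborFinset, SimpleGraph.mem_neighborFinset] at hv
    have h1 := hprop _ _ hv.1
    have h2 := hprop _ _ hv.2
    revert h1 h2 hxy
    cases col x <;> cases col y <;> cases col v <;> simp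
  rw [this, Nat.cast_zero]

lemma sq_mulVec (φ : V → ℝ) (x : V) :
    (sq H *ᵥ φ) x = ∑ u ∈ H.neighborFinset x, ∑ z ∈ H.neighborFinset u, φ z := by
  unfold sq
  rw [← Matrix.mulVec_mulVec, SimpleGraph.adjMatrix_mulVec_apply]
  apply Finset.sum_congr rfl
  intro u _
  rw [SimpleGraph.adjMatrix_mulVec_apply]

lemma Wg_comm (x y : V) : Wg H x y = Wg H y x := by
  unfold Wg
  rw [Finset.sum_comm]
  apply Finset.sum_congr rfl
  intro v _
  apply Finset.sum_congr rfl
  intro w _
  exact Mg_comm w v

/-- indicator of a colour class -/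
noncomputable def ind (col : V → Bool) (c : Bool) : V → ℝ := fun v => if col v = c then 1 else 0

lemma sq_mulVec_ind (hreg : ∀ v, (H.neighborFinset v).card = 3) {col : V → Bool}
    (hprop : ∀ v w, H.Adj v w → col v ≠ col w) (c : Bool) :
    sq H *ᵥ ind col c = (9 : ℝ) • ind col c := by
  funext x
  rw [sq_mulVec, Pi.smul_apply, smul_eq_mul]
  have h1 : ∀ u ∈ H.neighborFinset x, ∀ z ∈ H.neighborFinset u, ind col c z = ind col c x := by
    intro u hu z hz
    rw [SimpleGraph.mem_neighborFinset] at hu hz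
    have h1 := hprop _ _ hu
    have h2 := hprop _ _ hz
    have : col z = col x := by
      revert h1 h2
      cases col x <;> cases col u <;> cases col z <;> simp
    unfold ind
    rw [this]
  rw [Finset.sum_congr rfl fun u hu => Finset.sum_congr rfl (h1 u hu)]
  simp only [Finset.sum_const, hreg, nsmul_eq_mul]
  push_cast
  ring

lemma sum_ind (col : V → Bool) (c : Bool) :
    ∑ v, ind col c v = ((Finset.univ.filter fun v => col v = c).card : ℝ) := by
  unfold ind
  simp

/-- The quadratic identity on a colour class. -/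
theorem quad_identity (hreg : ∀ v, (H.neighborFinset v).card = 3) (hconn : H.Connected)
    {col : V → Bool} (hprop : ∀ v w, H.Adj v w → col v ≠ col w) {a b : ℝ}
    (hs : ∀ μ ∈ spectrum ℝ (H.adjMatrix ℝ), μ ^ 2 = 9 ∨ μ ^ 2 = a ∨ μ ^ 2 = b) {x₀ : V} :
    ∃ β : ℝ, (∀ x y, col x = col x₀ → col y = col x₀ →
      (Wg H x y : ℝ) = (a + b) * Mg H x y - (if x = y then a * b else 0) + β) ∧
      ((Finset.univ.filter fun v => col v = col x₀).card : ℝ) * β = (9 - a) * (9 - b) := by
  set Q : Matrix V V ℝ := (sq H - a • 1) * (sq H - b • 1) with hQ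
  have hQe : ∀ x y, Q x y = (Wg H x y : ℝ) - (a + b) * Mg H x y + (if x = y then a * b else 0) := by
    intro x y
    have : Q = sq H * sq H - (a + b) • sq H + (a * b) • 1 := by
      rw [hQ]
      simp only [sub_mul, mul_sub, smul_mul_assoc, mul_smul_comm, one_mul, mul_one]
      module
    rw [this, Matrix.add_apply, Matrix.sub_apply, sq_sq_apply, Matrix.smul_apply, sq_apply,
      Matrix.smul_apply, Matrix.one_apply]
    simp only [smul_eq_mul, mul_ite, mul_one, mul_zero]
  have hQs : ∀ x y, Q x y = Q y x := by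
    intro x y
    rw [hQe, hQe, Wg_comm, Mg_comm]
    simp only [eq_comm]
  have hh : sq H * Q = (9 : ℝ) • Q := by
    have h := cubic_identity hs
    rw [← hQ, sub_mul, smul_mul_assoc, one_mul, sub_eq_zero] at h
    exact h
  have hcol : ∀ y x x', col x = col x' → Q x y = Q x' y := by
    intro y x x' hxx
    apply const_of_harmonic hreg hconn hprop (φ := fun z => Q z y) _ hxx
    intro z
    rw [← sq_mulVec (fun z => Q z y) z]
    have : (sq H * Q) z y = (sq H *ᵥ fun z => Q z y) z := rfl
    rw [← this, hh, Matrix.smul_apply, smul_eq_mul]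
  have hconst : ∀ x y, col x = col x₀ → col y = col x₀ → Q x y = Q x₀ x₀ := by
    intro x y hx hy
    rw [hcol y x x₀ hx, hQs, hcol x₀ y x₀ hy]
  refine ⟨Q x₀ x₀, ?_, ?_⟩
  · intro x y hx hy
    have := hconst x y hx hy
    rw [hQe] at this
    linarith
  · have h1 : Q *ᵥ ind col (col x₀) = ((9 - a) * (9 - b)) • ind col (col x₀) := by
      rw [hQ, ← Matrix.mulVec_mulVec]
      simp only [Matrix.sub_mulVec, Matrix.smul_mulVec, Matrix.one_mulVec,
        sq_mulVec_ind hreg hprop, Matrix.mulVec_sub, Matrix.mulVec_smul]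
      module
    have h2 : (Q *ᵥ ind col (col x₀)) x₀ = (9 - a) * (9 - b) := by
      rw [h1, Pi.smul_apply]
      simp [ind]
    rw [← h2]
    change _ = ∑ y, Q x₀ y * ind col (col x₀) y
    rw [← sum_ind, Finset.sum_mul]
    apply Finset.sum_congr rfl
    intro y _
    by_cases hy : col y = col x₀
    · rw [hconst x₀ y rfl hy]; ring
    · have : ind col (col x₀) y = 0 := by unfold ind; rw [if_neg hy]
      rw [this]; ring

lemma Wg_eq_zero {col : V → Bool} (hprop : ∀ v w, H.Adj v w → col v ≠ col w) {x y : V}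
    (hxy : col x ≠ col y) : (Wg H x y : ℝ) = 0 := by
  rw [← sq_sq_apply, Matrix.mul_apply]
  apply Finset.sum_eq_zero
  intro z _
  by_cases h : col x = col z
  · rw [sq_eq_zero hprop (x := z) (y := y) (fun h' => hxy (h.trans h')), mul_zero]
  · rw [sq_eq_zero hprop h, zero_mul]

/-- Integrality of the multiplicities. -/
theorem multiplicity (hreg : ∀ v, (H.neighborFinset v).card = 3)
    {col : V → Bool} (hprop : ∀ v w, H.Adj v w → col v ≠ col w) {a b β : ℝ} {c : Bool}
    (hab : a ≠ b)
    (hW : ∀ x y, col x = c → col y = c →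
      (Wg H x y : ℝ) = (a + b) * Mg H x y - (if x = y then a * b else 0) + β)
    {n : ℕ} (hn : (Finset.univ.filter fun v => col v = c).card = n) (hn0 : n ≠ 0)
    (hnβ : (n : ℝ) * β = (9 - a) * (9 - b)) :
    ∃ m : ℕ, (a - b) * m = 3 * n - 9 - b * (n - 1) := by
  have hnR : (n : ℝ) ≠ 0 := by exact_mod_cast hn0
  set e := ind col c with he
  have hee : ∀ x, e x * e x = e x := by
    intro x; rw [he]; unfold ind; split_ifs <;> simp
  set D : Matrix V V ℝ := Matrix.diagonal e with hD
  set R : Matrix V V ℝ := Matrix.vecMulVec e e with hR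
  set Y : Matrix V V ℝ := D * sq H with hY
  have hsqe : sq H *ᵥ e = (9 : ℝ) • e := sq_mulVec_ind hreg hprop c
  have hesq : e ᵥ* sq H = (9 : ℝ) • e := by
    rw [← hsqe, ← Matrix.mulVec_transpose]
    congr 1
    ext x y
    rw [Matrix.transpose_apply, sq_symm]
  have hsum : e ⬝ᵥ e = n := by
    rw [dotProduct, Finset.sum_congr rfl fun x _ => hee x, he, sum_ind, hn]
  have hDD : D * D = D := by
    rw [hD, Matrix.diagonal_mul_diagonal]
    congr 1
    funext x
    exact hee x
  have hDe : D *ᵥ e = e := by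
    funext x
    rw [hD, Matrix.mulVec_diagonal, hee]
  have heD : e ᵥ* D = e := by
    funext x
    rw [hD, Matrix.vecMul_diagonal, hee]
  have hsD : sq H * D = D * sq H := by
    ext x y
    rw [hD, Matrix.mul_diagonal, Matrix.diagonal_mul]
    by_cases hxy : col x = col y
    · have : e x = e y := by rw [he]; unfold ind; rw [hxy]
      rw [this, mul_comm]
    · rw [sq_eq_zero hprop hxy]; ring
  have hDR : D * R = R := by rw [hR, Matrix.mul_vecMulVec, hDe]
  have hRD : R * D = R := by rw [hR, Matrix.vecMulVec_mul, heD]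
  have hYD : Y * D = Y := by rw [hY, Matrix.mul_assoc, hsD, ← Matrix.mul_assoc, hDD]
  have hDY : D * Y = Y := by rw [hY, ← Matrix.mul_assoc, hDD]
  have hYR : Y * R = (9 : ℝ) • R := by
    rw [hY, Matrix.mul_assoc, hR, Matrix.mul_vecMulVec, hsqe, Matrix.smul_vecMulVec,
      Matrix.mul_smul, ← hR, hDR]
  have hRY : R * Y = (9 : ℝ) • R := by
    rw [hY, ← Matrix.mul_assoc, hRD, hR, Matrix.vecMulVec_mul, hesq, Matrix.vecMulVec_smul]
  have hRR : R * R = (n : ℝ) • R := by
    rw [hR, Matrix.vecMulVec_mul_vecMulVec, hsum, Matrix.vecMulVec_smul]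
  have hYY : Y * Y = (a + b) • Y - (a * b) • D + β • R := by
    have h1 : Y * Y = D * (sq H * sq H) := by
      rw [hY, Matrix.mul_assoc, ← Matrix.mul_assoc (sq H) D, hsD, ← Matrix.mul_assoc,
        ← Matrix.mul_assoc, hDD, Matrix.mul_assoc]
    rw [h1]
    ext x y
    rw [Matrix.add_apply, Matrix.sub_apply, Matrix.smul_apply, Matrix.smul_apply,
      Matrix.smul_apply, hY, hD, Matrix.diagonal_mul, Matrix.diagonal_mul, sq_sq_apply,
      sq_apply, hR, Matrix.vecMulVec_apply, Matrix.diagonal_apply]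
    simp only [smul_eq_mul]
    by_cases hx : col x = c
    · have hex : e x = 1 := by rw [he]; unfold ind; rw [if_pos hx]
      by_cases hy : col y = c
      · have hey : e y = 1 := by rw [he]; unfold ind; rw [if_pos hy]
        rw [hW x y hx hy, hex, hey]
        by_cases hxy : x = y
        · rw [if_pos hxy, if_pos hxy]; ring
        · rw [if_neg hxy, if_neg hxy]; ring
      · have hey : e y = 0 := by rw [he]; unfold ind; rw [if_neg hy]
        have hxy : col x ≠ col y := fun h => hy (h.symm.trans hx)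
        have hxy' : x ≠ y := fun h => hxy (by rw [h])
        have hM := sq_eq_zero hprop hxy
        rw [sq_apply] at hM
        rw [Wg_eq_zero hprop hxy, hM, hey, if_neg hxy']
        ring
    · have hex : e x = 0 := by rw [he]; unfold ind; rw [if_neg hx]
      rw [hex]
      simp
  -- the idempotent
  set k : ℝ := (9 - b) / n with hk
  have hkn : k * n = 9 - b := by rw [hk]; field_simp
  set Z : Matrix V V ℝ := Y - b • D - k • R with hZ
  have hβ : β = (9 - a) * k := by
    have : (n : ℝ) * β = n * ((9 - a) * k) := by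
      rw [hnβ, ← hkn]; ring
    exact mul_left_cancel₀ hnR this
  have hZZ : Z * Z = (a - b) • Z := by
    rw [hZ]
    simp only [sub_mul, mul_sub, smul_mul_assoc, mul_smul_comm, hYY, hYD, hYR, hDY, hDD, hDR,
      hRY, hRD, hRR]
    match_scalars
    · ring
    · ring
    · rw [hβ]
      linear_combination k * hkn
  have hab' : a - b ≠ 0 := sub_ne_zero.2 hab
  obtain ⟨m, hm⟩ := trace_idem (E := (a - b)⁻¹ • Z) (by
    rw [smul_mul_assoc, mul_smul_comm, hZZ, smul_smul, smul_smul]
    congr 1
    field_simp)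
  refine ⟨m, ?_⟩
  rw [← hm, Matrix.trace_smul, smul_eq_mul, mul_inv_cancel_left₀ hab', hZ, Matrix.trace_sub,
    Matrix.trace_sub, Matrix.trace_smul, Matrix.trace_smul]
  have hD' : D.trace = n := by
    rw [hD, Matrix.trace_diagonal, he, sum_ind, hn]
  have hR' : R.trace = n := by
    rw [hR, Matrix.trace_vecMulVec, hsum]
  have hY' : Y.trace = 3 * n := by
    rw [Matrix.trace]
    have : ∀ x, Y.diag x = 3 * e x := by
      intro x
      rw [Matrix.diag_apply, hY, hD, Matrix.diagonal_mul, sq_apply]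
      unfold Mg
      rw [Finset.inter_self, hreg]
      push_cast; ring
    rw [Finset.sum_congr rfl fun x _ => this x, ← Finset.mul_sum, he, sum_ind, hn]
  rw [hD', hR', hY', smul_eq_mul, smul_eq_mul]
  linear_combination -hkn

end graph

end Pool.Agent.H.MP_5e604b_co
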