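import Pool.Agent.H.MP_5e604b_co.Engine

/-!
The target graphs and the pruning tests used by the checker.
-/

namespace Pool.Agent.H.MP_5e604b_co

/-! ### Targets -/

/-- LCF codes of the thirteen graphs. -/
def codes : List (ℕ × List ℤ) :=
  [(6, [3, -3]), (8, [3, -3]), (10, [3, -3]), (12, [5, -5]), (14, [5, -5]), (16, [5, -5]),
   (16, [7, -7]), (18, [5, 7, -7, 7, -7, -5]), (20, [5, -5, 9, -9]),
   (20, [-9, -7, 7, -7, -5, 5, -9, 5, 7, -7, -5, 9, -5, 5, 7, -7, 7, 9, -5, 5]),
   (26, [7, -7]), (30, [-13, -9, 7, -7, 9, 13]), (32, [5, -5, 13, -13])]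

def toTgt (c : ℕ × List ℤ) : Tgt := ⟨c.1, c.2.map fun l => (l % (c.1 : ℤ)).toNat⟩

def tgts : List Tgt :=
  [⟨6, [3, 3]⟩, ⟨8, [3, 5]⟩, ⟨10, [3, 7]⟩, ⟨12, [5, 7]⟩, ⟨14, [5, 9]⟩, ⟨16, [5, 11]⟩, ⟨16, [7, 9]⟩,
   ⟨18, [5, 7, 11, 7, 11, 13]⟩, ⟨20, [5, 15, 9, 11]⟩,
   ⟨20, [11, 13, 7, 13, 15, 5, 11, 5, 7, 13, 15, 9, 15, 5, 7, 13, 7, 9, 15, 5]⟩,
   ⟨26, [7, 19]⟩, ⟨30, [17, 21, 7, 23, 9, 13]⟩, ⟨32, [5, 27, 13, 19]⟩]

lemma tgts_eq : codes.map toTgt = tgts := by rfl

lemma val_of_modEq {N : ℕ} (hN : 0 < N) {z : Fin N} {y : ℕ} {l : ℤ}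
    (h : (z.val : ℤ) ≡ y + l [ZMOD N]) : z.val = (y + (l % (N : ℤ)).toNat) % N := by
  have hN' : (N : ℤ) ≠ 0 := by exact_mod_cast hN.ne'
  have h1 : 0 ≤ l % (N : ℤ) := Int.emod_nonneg _ hN'
  have h2 : (z.val : ℤ) = ((y + (l % (N : ℤ)).toNat : ℕ) : ℤ) % (N : ℤ) := by
    rw [Nat.cast_add, Int.toNat_of_nonneg h1, Int.add_emod_emod, ← h.eq]
    exact (Int.emod_eq_of_lt (by positivity) (by exact_mod_cast z.isLt)).symm
  exact_mod_cast h2

lemma adj_lcf {N : ℕ} {L : List ℤ} (hN : 0 < N) {y z : Fin N} (h : (lcf N L).Adj y z) :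
    z.val = nxt N y ∨ z.val = cho (toTgt (N, L)) y ∨ y.val = nxt N z ∨
      y.val = cho (toTgt (N, L)) z := by
  have key1 : ∀ y z : Fin N, (z.val : ℤ) ≡ y.val + 1 [ZMOD N] → z.val = nxt N y := by
    intro y z h
    have h' := val_of_modEq hN h
    rw [h']
    unfold nxt
    have : ((y.val + ((1 : ℤ) % (N : ℤ)).toNat) % N) = (y.val + 1) % N := by
      have h1 : ((1 : ℤ) % (N : ℤ)).toNat = 1 % N := by
        have : ((1 : ℤ) % (N : ℤ)) = ((1 % N : ℕ) : ℤ) := by push_cast; rfl
        rw [this, Int.toNat_natCast]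
      rw [h1, Nat.add_mod_mod]
    exact this
  have key2 : ∀ y z : Fin N, (z.val : ℤ) ≡ y.val + L.getD (y.val % L.length) 0 [ZMOD N] →
      z.val = cho (toTgt (N, L)) y := by
    intro y z h
    have h' := val_of_modEq hN h
    rw [h']
    unfold cho toTgt
    simp only [List.length_map]
    congr 2
    rw [List.getD_eq_getElem?_getD, List.getD_eq_getElem?_getD, List.getElem?_map]
    cases L[y.val % L.length]? with
    | none => simp
    | some a => simp
  unfold lcf at h
  rw [SimpleGraph.fromRel_adj] at h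
  obtain ⟨-, (h | h) | (h | h)⟩ := h
  · exact Or.inl (key1 y z h)
  · exact Or.inr (Or.inl (key2 y z h))
  · exact Or.inr (Or.inr (Or.inl (key1 z y h)))
  · exact Or.inr (Or.inr (Or.inr (key2 z y h)))

lemma reg_codes : ∀ c ∈ codes, ∀ w : Fin c.1, ((lcf c.1 c.2).neighborFinset w).card = 3 := by
  decide +kernel

lemma isTgt {c : ℕ × List ℤ} (hc : c ∈ codes) : IsTgt (toTgt c) (lcf c.1 c.2) where
  reg := reg_codes c hc
  adj := by
    intro y z h
    have hN : 0 < c.1 := lt_of_le_of_lt (Nat.zero_le _) y.isLt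
    exact adj_lcf hN h
  pos := by
    have : ∀ c ∈ codes, 0 < c.1 := by decide
    exact this c hc

/-! ### Pruning tests -/

/-- Test for the parameter case. -/
def badParam (w0 p beta : ℕ) (bl : List T) (u : ℕ) (args : List ℕ) : Bool :=
  Nat.blt (args.getD 0 0) u && (Nat.blt (args.getD 1 0) u && (Nat.beq (deg bl (args.getD 0 0)) 3 &&
    (Nat.blt (cond (Nat.beq (args.getD 0 0) (args.getD 1 0)) w0
        (p * Mst bl (args.getD 0 0) (args.getD 1 0) + beta))
      (Wst bl (args.getD 0 0) (args.getD 1 0)) ||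
    (Nat.beq (deg bl (args.getD 1 0)) 3 &&
      !(Nat.beq (Wst bl (args.getD 0 0) (args.getD 1 0))
        (cond (Nat.beq (args.getD 0 0) (args.getD 1 0)) w0
          (p * Mst bl (args.getD 0 0) (args.getD 1 0) + beta)))))))

/-- Test for the case in which no two points are on exactly one common block. -/
def badOne (bl : List T) (u : ℕ) (args : List ℕ) : Bool :=
  Nat.blt (args.getD 0 0) u && (Nat.blt (args.getD 1 0) u && (Nat.beq (deg bl (args.getD 0 0)) 3 &&
    (!(Nat.beq (args.getD 0 0) (args.getD 1 0)) &&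
      Nat.beq (Mst bl (args.getD 0 0) (args.getD 1 0)) 1)))

/-- all labels in a list are complete -/
def allFull (bl : List T) (u : ℕ) (l : List ℕ) : Bool :=
  l.all fun i => Nat.blt i u && Nat.beq (deg bl i) 3

/-- Test for the case of unknown parameters. -/
def badFree (bl : List T) (u : ℕ) (args : List ℕ) : Bool :=
  allFull bl u [args.getD 0 0, args.getD 1 0, args.getD 2 0, args.getD 3 0, args.getD 4 0,
      args.getD 5 0] &&
  ((Nat.beq (args.getD 0 0) (args.getD 1 0) && (Nat.beq (args.getD 2 0) (args.getD 3 0) &&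
      !(Nat.beq (Wst bl (args.getD 0 0) (args.getD 0 0))
        (Wst bl (args.getD 2 0) (args.getD 2 0))))) ||
   (!(Nat.beq (args.getD 0 0) (args.getD 1 0)) && (!(Nat.beq (args.getD 2 0) (args.getD 3 0)) &&
    (!(Nat.beq (args.getD 4 0) (args.getD 5 0)) &&
    ((Nat.beq (Mst bl (args.getD 0 0) (args.getD 1 0)) (Mst bl (args.getD 2 0) (args.getD 3 0)) &&
      !(Nat.beq (Wst bl (args.getD 0 0) (args.getD 1 0))
        (Wst bl (args.getD 2 0) (args.getD 3 0)))) ||
    !(Nat.beq
      (Mst bl (args.getD 2 0) (args.getD 3 0) * Wst bl (args.getD 4 0) (args.getD 5 0) +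
        Mst bl (args.getD 4 0) (args.getD 5 0) * Wst bl (args.getD 0 0) (args.getD 1 0) +
        Mst bl (args.getD 0 0) (args.getD 1 0) * Wst bl (args.getD 2 0) (args.getD 3 0))
      (Mst bl (args.getD 4 0) (args.getD 5 0) * Wst bl (args.getD 2 0) (args.getD 3 0) +
        Mst bl (args.getD 0 0) (args.getD 1 0) * Wst bl (args.getD 4 0) (args.getD 5 0) +
        Mst bl (args.getD 2 0) (args.getD 3 0) * Wst bl (args.getD 0 0) (args.getD 1 0))))))))

section sound

set_option linter.unusedSectionVars false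

variable {V : Type*} [Fintype V] [DecidableEq V] {H : SimpleGraph V} [DecidableRel H.Adj]
variable {col : V → Bool} {bl : List T} {u ng : ℕ} {f : ℕ → V} {zl : List V}

lemma badParam_sound {w0 p beta : ℕ} (hreg : ∀ v, (H.neighborFinset v).card = 3)
    (hW : ∀ x y, col x = false → col y = false →
      Wg H x y = if x = y then w0 else p * Mg H x y + beta)
    (hR : IsReal H col bl u ng f zl) {args : List ℕ} (h : badParam w0 p beta bl u args = true) :
    False := by
  unfold badParam at h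
  generalize args.getD 0 0 = i at h
  generalize args.getD 1 0 = j at h
  rw [Bool.and_eq_true, Bool.and_eq_true, Bool.and_eq_true, Nat.blt_eq, Nat.blt_eq, Nat.beq_eq,
    Bool.or_eq_true, Bool.and_eq_true, Nat.blt_eq, Nat.beq_eq, Bool.not_eq_true',
    ← Bool.not_eq_true, Nat.beq_eq] at h
  obtain ⟨hi, hj, hd, h⟩ := h
  have htarget : cond (Nat.beq i j) w0 (p * Mst bl i j + beta) = Wg H (f i) (f j) := by
    rw [hW _ _ (hR.col i hi) (hR.col j hj), hR.Mst_of_complete hreg hi hj hd]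
    by_cases hij : i = j
    · subst hij
      rw [if_pos rfl, show Nat.beq i i = true from Nat.beq_refl i, cond_true]
    · have h1 : ¬ f i = f j := fun h => hij (hR.inj i hi j hj h)
      have h2 : Nat.beq i j = false := by
        rw [← Bool.not_eq_true, Nat.beq_eq]; exact hij
      rw [if_neg h1, h2, cond_false]
  rw [htarget] at h
  rcases h with h | ⟨hd', h⟩
  · exact absurd (hR.Wst_le hi hj) (not_le.2 h)
  · exact h (hR.Wst_of_complete hreg hi hj hd hd')

lemma badOne_sound (hreg : ∀ v, (H.neighborFinset v).card = 3)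
    (hM : ∀ x y, x ≠ y → col x = false → col y = false → Mg H x y ≠ 1)
    (hR : IsReal H col bl u ng f zl) {args : List ℕ} (h : badOne bl u args = true) :
    False := by
  unfold badOne at h
  generalize args.getD 0 0 = i at h
  generalize args.getD 1 0 = j at h
  rw [Bool.and_eq_true, Bool.and_eq_true, Bool.and_eq_true, Bool.and_eq_true, Nat.blt_eq,
    Nat.blt_eq, Nat.beq_eq, Bool.not_eq_true', ← Bool.not_eq_true, Nat.beq_eq, Nat.beq_eq] at h
  obtain ⟨hi, hj, hd, hij, h⟩ := h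
  rw [hR.Mst_of_complete hreg hi hj hd] at h
  exact hM _ _ (fun h => hij (hR.inj i hi j hj h)) (hR.col i hi) (hR.col j hj) h

lemma badFree_sound (hreg : ∀ v, (H.neighborFinset v).card = 3)
    (hdiag : ∀ x y, col x = false → col y = false → Wg H x x = Wg H y y)
    {p β : ℝ} (hW : ∀ x y, x ≠ y → col x = false → col y = false →
      (Wg H x y : ℝ) = p * Mg H x y + β)
    (hR : IsReal H col bl u ng f zl) {args : List ℕ} (h : badFree bl u args = true) :
    False := by
  unfold badFree allFull at h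
  generalize args.getD 0 0 = a at h
  generalize args.getD 1 0 = b at h
  generalize args.getD 2 0 = c at h
  generalize args.getD 3 0 = d at h
  generalize args.getD 4 0 = e at h
  generalize args.getD 5 0 = g at h
  simp only [List.all_cons, List.all_nil, Bool.and_eq_true, Nat.blt_eq, Nat.beq_eq,
    Bool.or_eq_true, Bool.not_eq_true', ← Bool.not_eq_true] at h
  obtain ⟨⟨⟨ha, ha3⟩, ⟨hb, hb3⟩, ⟨hc, hc3⟩, ⟨hd, hd3⟩, ⟨he, he3⟩, ⟨hg, hg3⟩, -⟩, h⟩ := h
  rcases h with ⟨-, -, h⟩ | ⟨hab, hcd, heg, h⟩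
  · apply h
    rw [hR.Wst_of_complete hreg ha ha ha3 ha3, hR.Wst_of_complete hreg hc hc hc3 hc3]
    exact hdiag _ _ (hR.col a ha) (hR.col c hc)
  · rw [hR.Wst_of_complete hreg ha hb ha3 hb3, hR.Wst_of_complete hreg hc hd hc3 hd3,
      hR.Wst_of_complete hreg he hg he3 hg3, hR.Mst_of_complete hreg ha hb ha3,
      hR.Mst_of_complete hreg hc hd hc3, hR.Mst_of_complete hreg he hg he3] at h
    have h1 := hW (f a) (f b) (fun h => hab (hR.inj a ha b hb h)) (hR.col a ha) (hR.col b hb)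
    have h2 := hW (f c) (f d) (fun h => hcd (hR.inj c hc d hd h)) (hR.col c hc) (hR.col d hd)
    have h3 := hW (f e) (f g) (fun h => heg (hR.inj e he g hg h)) (hR.col e he) (hR.col g hg)
    rcases h with ⟨hM, h⟩ | h
    · apply h
      rw [hM] at h1
      exact_mod_cast h1.trans h2.symm
    · apply h
      have : ((Mg H (f c) (f d) * Wg H (f e) (f g) + Mg H (f e) (f g) * Wg H (f a) (f b) +
          Mg H (f a) (f b) * Wg H (f c) (f d) : ℕ) : ℝ)
          = ((Mg H (f e) (f g) * Wg H (f c) (f d) + Mg H (f a) (f b) * Wg H (f e) (f g) +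
          Mg H (f c) (f d) * Wg H (f a) (f b) : ℕ) : ℝ) := by
        push_cast
        rw [h1, h2, h3]
        ring
      exact_mod_cast this

/-- General consequence of a successful run. -/
theorem run_iso {nmax mmax nargs : ℕ} {bad : List T → ℕ → List ℕ → Bool} {fuel cert : ℕ}
    (hrun : (run nmax mmax nargs bad tgts fuel [] 1 0 cert).isSome = true)
    (hH : Hyp H col nmax mmax) (hconn : H.Connected) {x : V} (hx : col x = false)
    (hbad : ∀ (bl : List T) (u ng : ℕ) (f : ℕ → V) (zl : List V) (args : List ℕ),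
      IsReal H col bl u ng f zl → bad bl u args = true → False) :
    ∃ c ∈ codes, Nonempty (lcf c.1 c.2 ≃g H) := by
  obtain ⟨c', hc'⟩ := Option.isSome_iff_exists.1 hrun
  refine run_sound (C := ∃ c ∈ codes, Nonempty (lcf c.1 c.2 ≃g H)) hH
    (fun bl u ng f zl args hR hb => (hbad bl u ng f zl args hR hb).elim) ?_ fuel [] 1 0 cert c' hc'
    (realizable_init hx)
  intro tg htg bl u ng f zl rho hR hl
  rw [← tgts_eq, List.mem_map] at htg
  obtain ⟨c, hc, rfl⟩ := htg
  exact ⟨c, hc, leaf_sound hR hH.reg hconn hH.proper (isTgt hc) hl⟩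

end sound

end Pool.Agent.H.MP_5e604b_co
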