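import Pool.Agent.H.MP_5e604b_co.Linear

/-!
The squared eigenvalues of a cubic bipartite graph satisfying a quadratic walk identity.
-/

namespace Pool.Agent.H.MP_5e604b_co

open Matrix Polynomial

section roots

set_option linter.unusedSectionVars false

variable {V : Type*} [Fintype V] [DecidableEq V]

lemma mem_spec (A : Matrix V V ℝ) (μ : ℝ) :
    μ ∈ spectrum ℝ A ↔ ∃ φ : V → ℝ, φ ≠ 0 ∧ A *ᵥ φ = μ • φ := by
  rw [spectrum.mem_iff, Matrix.isUnit_iff_isUnit_det, isUnit_iff_ne_zero, not_not,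
    ← Matrix.exists_mulVec_eq_zero_iff]
  constructor
  · rintro ⟨φ, h0, h⟩
    refine ⟨φ, h0, ?_⟩
    rw [Algebra.algebraMap_eq_smul_one, Matrix.sub_mulVec, Matrix.smul_mulVec, Matrix.one_mulVec,
      sub_eq_zero] at h
    exact h.symm
  · rintro ⟨φ, h0, h⟩
    refine ⟨φ, h0, ?_⟩
    rw [Algebra.algebraMap_eq_smul_one, Matrix.sub_mulVec, Matrix.smul_mulVec, Matrix.one_mulVec,
      sub_eq_zero]
    exact h.symm

variable {H : SimpleGraph V} [DecidableRel H.Adj]

/-- the set of squared eigenvalues -/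
def Sq (H : SimpleGraph V) [DecidableRel H.Adj] : Set ℝ :=
  {t | ∃ μ ∈ spectrum ℝ (H.adjMatrix ℝ), μ ^ 2 = t}

lemma nine_mem (hreg : ∀ v, (H.neighborFinset v).card = 3) [Nonempty V] : (9 : ℝ) ∈ Sq H := by
  refine ⟨3, ?_, by norm_num⟩
  rw [mem_spec]
  refine ⟨fun _ => 1, ?_, ?_⟩
  · intro h
    have := congrFun h (Classical.arbitrary V)
    simp at this
  · funext x
    rw [SimpleGraph.adjMatrix_mulVec_apply]
    simp [hreg]

lemma neg_mem_spec {col : V → Bool} (hprop : ∀ v w, H.Adj v w → col v ≠ col w) {μ : ℝ}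
    (hμ : μ ∈ spectrum ℝ (H.adjMatrix ℝ)) : -μ ∈ spectrum ℝ (H.adjMatrix ℝ) := by
  rw [mem_spec] at hμ ⊢
  obtain ⟨φ, h0, h⟩ := hμ
  refine ⟨fun v => if col v = true then φ v else - φ v, ?_, ?_⟩
  · intro h'
    apply h0
    funext v
    have := congrFun h' v
    by_cases hv : col v = true
    · simpa [hv] using this
    · simpa [hv] using this
  · funext x
    have hx := congrFun h x
    rw [SimpleGraph.adjMatrix_mulVec_apply] at hx ⊢
    have h1 : ∀ u ∈ H.neighborFinset x, (if col u = true then φ u else - φ u)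
        = (if col x = true then - φ u else φ u) := by
      intro u hu
      rw [SimpleGraph.mem_neighborFinset] at hu
      have := hprop _ _ hu
      revert this
      cases col x <;> cases col u <;> simp
    rw [Finset.sum_congr rfl h1]
    simp only [Pi.smul_apply, smul_eq_mul] at hx ⊢
    by_cases hc : col x = true
    · simp only [hc, if_true, Finset.sum_neg_distrib]
      rw [hx]; ring
    · have hc' : ∀ a b : ℝ, (if col x = true then a else b) = b := fun a b => if_neg hc
      simp only [hc']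
      rw [hx]; ring

/-- Squared eigenvalues satisfy the quadratic equation. -/
theorem sq_root (hreg : ∀ v, (H.neighborFinset v).card = 3)
    {col : V → Bool} (hprop : ∀ v w, H.Adj v w → col v ≠ col w) {p q β : ℝ}
    (hW : ∀ x y, col x = col y →
      (Wg H x y : ℝ) = p * Mg H x y - (if x = y then q else 0) + β) {μ : ℝ}
    (hμ : μ ∈ spectrum ℝ (H.adjMatrix ℝ)) : μ ^ 2 = 9 ∨ μ ^ 2 * μ ^ 2 - p * μ ^ 2 + q = 0 := by
  rw [mem_spec] at hμ
  obtain ⟨φ, h0, h⟩ := hμ
  by_cases h9 : μ ^ 2 = 9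
  · exact Or.inl h9
  right
  have hsq : sq H *ᵥ φ = μ ^ 2 • φ := by
    unfold sq
    rw [← Matrix.mulVec_mulVec, h, Matrix.mulVec_smul, h, smul_smul, pow_two]
  have horth : ∀ c, ind col c ⬝ᵥ φ = 0 := by
    intro c
    have h1 : ind col c ⬝ᵥ (sq H *ᵥ φ) = 9 * (ind col c ⬝ᵥ φ) := by
      rw [Matrix.dotProduct_mulVec]
      have : ind col c ᵥ* sq H = (9 : ℝ) • ind col c := by
        rw [← sq_mulVec_ind hreg hprop, ← Matrix.mulVec_transpose]
        congr 1
        ext x y
        rw [Matrix.transpose_apply, sq_symm]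
      rw [this, smul_dotProduct, smul_eq_mul]
    rw [hsq, dotProduct_smul, smul_eq_mul] at h1
    have h2 : (μ ^ 2 - 9) * (ind col c ⬝ᵥ φ) = 0 := by linarith
    exact (mul_eq_zero.1 h2).resolve_left (sub_ne_zero.2 h9)
  obtain ⟨x, hx⟩ : ∃ x, φ x ≠ 0 := by
    by_contra hcon
    push Not at hcon
    exact h0 (funext hcon)
  have hent : ∀ y, (Wg H x y : ℝ) * φ y
      = p * (sq H x y * φ y) - q * (if x = y then φ y else 0) + β * (ind col (col x) y * φ y) := by
    intro y
    by_cases hxy : col x = col y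
    · rw [hW x y hxy, sq_apply]
      unfold ind
      rw [if_pos hxy.symm]
      split_ifs <;> ring
    · have hne : x ≠ y := fun h => hxy (by rw [h])
      rw [Wg_eq_zero hprop hxy, sq_eq_zero hprop hxy, if_neg hne]
      unfold ind
      rw [if_neg (fun h => hxy h.symm)]
      ring
  have h1 : ((sq H * sq H) *ᵥ φ) x = μ ^ 2 * μ ^ 2 * φ x := by
    rw [← Matrix.mulVec_mulVec, hsq, Matrix.mulVec_smul, hsq, smul_smul, Pi.smul_apply,
      smul_eq_mul]
  have h2 : ((sq H * sq H) *ᵥ φ) x = p * (μ ^ 2 * φ x) - q * φ x := by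
    change ∑ y, (sq H * sq H) x y * φ y = _
    simp only [sq_sq_apply, hent, Finset.sum_add_distrib, Finset.sum_sub_distrib,
      ← Finset.mul_sum]
    have e1 : ∑ y, sq H x y * φ y = μ ^ 2 * φ x := by
      have := congrFun hsq x
      rw [Pi.smul_apply, smul_eq_mul] at this
      exact this
    have e2 : ∑ y, ind col (col x) y * φ y = 0 := horth (col x)
    rw [e1, e2, Finset.sum_ite_eq]
    simp
  rw [h1] at h2
  have h3 : (μ ^ 2 * μ ^ 2 - p * μ ^ 2 + q) * φ x = 0 := by linear_combination h2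
  exact (mul_eq_zero.1 h3).resolve_right hx

/-- Both roots are attained when the walk counts are not affine in a degenerate way. -/
theorem attained {col : V → Bool} {a b β : ℝ} (hβ : β ≠ 0)
    (hW : ∀ x y, col x = col y →
      (Wg H x y : ℝ) = (a + b) * Mg H x y - (if x = y then a * b else 0) + β)
    (hroot : ∀ μ ∈ spectrum ℝ (H.adjMatrix ℝ), μ ^ 2 = 9 ∨ μ ^ 2 = a ∨ μ ^ 2 = b)
    {x y x' y' : V} (hxy : x ≠ y) (hxy' : x' ≠ y') (hc : col x = col y) (hc' : col x' = col y')
    (hM : Mg H x y ≠ Mg H x' y') : a ∈ Sq H := by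
  by_contra hcon
  have h := aeval_eq_zero (isHermitian_adj H) (p := (X ^ 2 - C 9) * (X ^ 2 - C b)) (by
      intro μ hμ
      simp only [eval_mul, eval_sub, eval_pow, eval_X, eval_C]
      rcases hroot μ hμ with h | h | h
      · rw [h]; ring
      · exact absurd ⟨μ, hμ, h⟩ hcon
      · rw [h]; ring)
  simp only [map_mul, map_sub, aeval_X, aeval_C, pow_two] at h
  rw [Algebra.algebraMap_eq_smul_one, Algebra.algebraMap_eq_smul_one] at h
  change (sq H - (9 : ℝ) • 1) * (sq H - b • 1) = 0 at h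
  have h' : sq H * sq H = (9 + b) • sq H - (9 * b) • 1 := by
    rw [← sub_eq_zero, ← h]
    simp only [sub_mul, mul_sub, smul_mul_assoc, mul_smul_comm, one_mul, mul_one]
    module
  have key : ∀ x y, x ≠ y → col x = col y → (9 - a) * (Mg H x y : ℝ) = β := by
    intro x y hxy hc
    have h1 := congrFun (congrFun h' x) y
    rw [sq_sq_apply, hW x y hc, if_neg hxy, Matrix.sub_apply, Matrix.smul_apply, sq_apply,
      Matrix.smul_apply, Matrix.one_apply_ne hxy] at h1
    simp only [smul_eq_mul, mul_zero, sub_zero] at h1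
    linarith
  have h1 := key x y hxy hc
  have h2 := key x' y' hxy' hc'
  have h9 : (9 - a) ≠ 0 := by
    intro h0
    rw [h0, zero_mul] at h1
    exact hβ h1.symm
  have h3 : (Mg H x y : ℝ) = Mg H x' y' := mul_left_cancel₀ h9 (h1.trans h2.symm)
  exact hM (by exact_mod_cast h3)

/-- The single root is attained in the degenerate case. -/
theorem attained_one {a : ℝ}
    (hroot : ∀ μ ∈ spectrum ℝ (H.adjMatrix ℝ), μ ^ 2 = 9 ∨ μ ^ 2 = a)
    {x y : V} (hxy : x ≠ y) (hM : Mg H x y ≠ 0) : a ∈ Sq H := by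
  by_contra hcon
  have h := aeval_eq_zero (isHermitian_adj H) (p := (X ^ 2 - C 9)) (by
      intro μ hμ
      simp only [eval_sub, eval_pow, eval_X, eval_C]
      rcases hroot μ hμ with h | h
      · rw [h]; ring
      · exact absurd ⟨μ, hμ, h⟩ hcon)
  simp only [map_sub, aeval_X, aeval_C, pow_two, map_mul] at h
  rw [Algebra.algebraMap_eq_smul_one] at h
  change sq H - (9 : ℝ) • 1 = 0 at h
  have h1 := congrFun (congrFun h x) y
  rw [Matrix.sub_apply, sq_apply, Matrix.smul_apply, Matrix.one_apply_ne hxy, smul_zero, sub_zero,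
    Matrix.zero_apply] at h1
  exact hM (by exact_mod_cast h1)

/-- The squared eigenvalues, two distinct roots. -/
theorem Sq_eq_two [Nonempty V] (hreg : ∀ v, (H.neighborFinset v).card = 3)
    {col : V → Bool} (hprop : ∀ v w, H.Adj v w → col v ≠ col w) {a b β : ℝ} (hβ : β ≠ 0)
    (hW : ∀ x y, col x = col y →
      (Wg H x y : ℝ) = (a + b) * Mg H x y - (if x = y then a * b else 0) + β)
    {x y x' y' : V} (hxy : x ≠ y) (hxy' : x' ≠ y') (hc : col x = col y) (hc' : col x' = col y')
    (hM : Mg H x y ≠ Mg H x' y') : Sq H = {9, a, b} := by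
  have hroot : ∀ μ ∈ spectrum ℝ (H.adjMatrix ℝ), μ ^ 2 = 9 ∨ μ ^ 2 = a ∨ μ ^ 2 = b := by
    intro μ hμ
    rcases sq_root hreg hprop hW hμ with h | h
    · exact Or.inl h
    · right
      have : (μ ^ 2 - a) * (μ ^ 2 - b) = 0 := by linear_combination h
      rcases mul_eq_zero.1 this with h | h
      · exact Or.inl (by linarith)
      · exact Or.inr (by linarith)
  have ha := attained hβ hW hroot hxy hxy' hc hc' hM
  have hb : b ∈ Sq H := by
    refine attained (a := b) (b := a) hβ ?_ ?_ hxy hxy' hc hc' hM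
    · intro x y h
      rw [add_comm b a, mul_comm b a]
      exact hW x y h
    · intro μ hμ
      rcases hroot μ hμ with h | h | h
      · exact Or.inl h
      · exact Or.inr (Or.inr h)
      · exact Or.inr (Or.inl h)
  ext t
  constructor
  · rintro ⟨μ, hμ, rfl⟩
    exact hroot μ hμ
  · rintro (rfl | rfl | rfl)
    · exact nine_mem hreg
    · exact ha
    · exact hb

/-- The squared eigenvalues, one double root. -/
theorem Sq_eq_one [Nonempty V] (hreg : ∀ v, (H.neighborFinset v).card = 3)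
    {col : V → Bool} (hprop : ∀ v w, H.Adj v w → col v ≠ col w) {a β : ℝ}
    (hW : ∀ x y, col x = col y →
      (Wg H x y : ℝ) = (a + a) * Mg H x y - (if x = y then a * a else 0) + β)
    {x y : V} (hxy : x ≠ y) (hM : Mg H x y ≠ 0) : Sq H = {9, a} := by
  have hroot : ∀ μ ∈ spectrum ℝ (H.adjMatrix ℝ), μ ^ 2 = 9 ∨ μ ^ 2 = a := by
    intro μ hμ
    rcases sq_root hreg hprop hW hμ with h | h
    · exact Or.inl h
    · right
      have : (μ ^ 2 - a) * (μ ^ 2 - a) = 0 := by linear_combination h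
      rcases mul_eq_zero.1 this with h | h <;> linarith
  have ha := attained_one hroot hxy hM
  ext t
  constructor
  · rintro ⟨μ, hμ, rfl⟩
    exact hroot μ hμ
  · rintro (rfl | rfl)
    · exact nine_mem hreg
    · exact ha

end roots

end Pool.Agent.H.MP_5e604b_co
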