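import Pool.Agent.H.MP_5e604b_co.Roots
import Pool.Agent.H.MP_5e604b_co.Modes

/-!
Walk counts of the thirteen graphs.
-/

namespace Pool.Agent.H.MP_5e604b_co

open Matrix Polynomial

/-! ### Tables -/

/-- The three neighbours of a vertex of a target graph. -/
def nbl (tg : Tgt) (y : ℕ) : List ℕ := [nxt tg.N y, (y + tg.N - 1) % tg.N, cho tg y]

def memb (a : ℕ) (l : List ℕ) : Bool := l.any (Nat.beq a)

def Ml (tg : Tgt) (x y : ℕ) : ℕ := ((nbl tg x).map fun c => b2n (memb y (nbl tg c))).sum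

def Wl (tg : Tgt) (x y : ℕ) : ℕ :=
  ((nbl tg x).map fun a => ((nbl tg y).map fun b => Ml tg a b).sum).sum

/-- parameters `(p, q, β)` in the order of `codes` -/
def pars : List (ℕ × ℕ × ℕ) :=
  [(0, 0, 27), (2, 1, 16), (3, 1, 11), (4, 3, 8), (4, 4, 7), (4, 3, 6), (6, 5, 4), (3, 0, 6),
   (5, 4, 4), (5, 4, 4), (5, 3, 3), (4, 0, 3), (6, 5, 2)]

def checkPar (tg : Tgt) (p q β : ℕ) : Bool :=
  (List.range tg.N).all fun x => (List.range tg.N).all fun y =>
    cond (Nat.beq ((x + y) % 2) 0)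
      (Nat.beq (Wl tg x y + cond (Nat.beq x y) q 0) (p * Ml tg x y + β))
      true

lemma checkPar_all :
    (List.zip codes pars).all (fun t => checkPar (toTgt t.1) t.2.1 t.2.2.1 t.2.2.2) = true := by
  decide +kernel

lemma adj_all : ∀ c ∈ codes, ∀ y z : Fin c.1,
    (lcf c.1 c.2).Adj y z ↔ memb z.val (nbl (toTgt c) y.val) = true := by
  decide +kernel

lemma nb_ok : ∀ c ∈ codes, ∀ y : Fin c.1, (nbl (toTgt c) y.val).Nodup ∧
    ∀ z ∈ nbl (toTgt c) y.val, z < c.1 ∧ z % 2 ≠ y.val % 2 := by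
  decide +kernel

lemma memb_iff (a : ℕ) (l : List ℕ) : memb a l = true ↔ a ∈ l := by
  unfold memb
  rw [List.any_eq_true]
  constructor
  · rintro ⟨x, hx, h⟩
    rw [Nat.beq_eq] at h
    rwa [h]
  · intro h
    exact ⟨a, h, Nat.beq_refl a⟩

lemma sum_nb {c : ℕ × List ℤ} (hc : c ∈ codes) (F : ℕ → ℕ) (y : Fin c.1) :
    ∑ z ∈ (lcf c.1 c.2).neighborFinset y, F z.val = ((nbl (toTgt c) y.val).map F).sum := by
  have h1 : ((lcf c.1 c.2).neighborFinset y).map Fin.valEmbedding
      = (nbl (toTgt c) y.val).toFinset := by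
    ext n
    rw [Finset.mem_map, List.mem_toFinset]
    constructor
    · rintro ⟨z, hz, rfl⟩
      rw [SimpleGraph.mem_neighborFinset, adj_all c hc, memb_iff] at hz
      exact hz
    · intro hn
      refine ⟨⟨n, ((nb_ok c hc y).2 n hn).1⟩, ?_, rfl⟩
      rw [SimpleGraph.mem_neighborFinset, adj_all c hc, memb_iff]
      exact hn
  rw [← List.sum_toFinset _ (nb_ok c hc y).1, ← h1, Finset.sum_map]
  rfl

lemma Mg_lcf {c : ℕ × List ℤ} (hc : c ∈ codes) (x y : Fin c.1) :
    Mg (lcf c.1 c.2) x y = Ml (toTgt c) x.val y.val := by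
  rw [Mg_eq_sum]
  unfold Ml
  rw [← sum_nb hc (fun c' => b2n (memb y.val (nbl (toTgt c) c'))) x]
  refine Finset.sum_congr rfl fun z _ => ?_
  rw [b2n_eq]
  have key : y ∈ (lcf c.1 c.2).neighborFinset z ↔ memb y.val (nbl (toTgt c) z.val) = true := by
    rw [SimpleGraph.mem_neighborFinset, adj_all c hc]
  by_cases h : y ∈ (lcf c.1 c.2).neighborFinset z
  · rw [if_pos h, if_pos (key.1 h)]
  · rw [if_neg h, if_neg (fun h' => h (key.2 h'))]

lemma Wg_lcf {c : ℕ × List ℤ} (hc : c ∈ codes) (x y : Fin c.1) :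
    Wg (lcf c.1 c.2) x y = Wl (toTgt c) x.val y.val := by
  unfold Wg Wl
  rw [← sum_nb hc (fun a => ((nbl (toTgt c) y.val).map fun b => Ml (toTgt c) a b).sum) x]
  refine Finset.sum_congr rfl fun v _ => ?_
  rw [← sum_nb hc (fun b => Ml (toTgt c) v.val b) y]
  exact Finset.sum_congr rfl fun w _ => Mg_lcf hc v w

/-- parity colouring -/
def par {N : ℕ} (y : Fin N) : Bool := decide (y.val % 2 = 1)

lemma par_proper {c : ℕ × List ℤ} (hc : c ∈ codes) (x y : Fin c.1)
    (h : (lcf c.1 c.2).Adj x y) : par x ≠ par y := by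
  rw [adj_all c hc, memb_iff] at h
  have := ((nb_ok c hc x).2 _ h).2
  unfold par
  intro h'
  rw [decide_eq_decide] at h'
  omega

lemma hW_lcf {c : ℕ × List ℤ} {p q β : ℕ} (h : (c, p, q, β) ∈ List.zip codes pars)
    (x y : Fin c.1) (hxy : par x = par y) :
    (Wg (lcf c.1 c.2) x y : ℝ) = p * Mg (lcf c.1 c.2) x y - (if x = y then (q : ℝ) else 0) + β := by
  have hc : c ∈ codes := (List.of_mem_zip h).1
  have h1 := List.all_eq_true.1 checkPar_all _ h
  simp only at h1
  unfold checkPar at h1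
  have h2 := List.all_eq_true.1 (List.all_eq_true.1 h1 x.val (List.mem_range.2 x.isLt)) y.val
    (List.mem_range.2 y.isLt)
  have h3 : Nat.beq ((x.val + y.val) % 2) 0 = true := by
    rw [Nat.beq_eq]
    unfold par at hxy
    rw [decide_eq_decide] at hxy
    omega
  rw [h3, cond_true, Nat.beq_eq, ← Wg_lcf hc, ← Mg_lcf hc] at h2
  have h4 : (cond (Nat.beq x.val y.val) q 0 : ℕ) = if x = y then q else 0 := by
    by_cases hx : x = y
    · rw [if_pos hx, hx, show Nat.beq y.val y.val = true from Nat.beq_refl _]; rfl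
    · have : Nat.beq x.val y.val = false := by
        rw [← Bool.not_eq_true, Nat.beq_eq]
        exact fun h => hx (Fin.ext h)
      rw [if_neg hx, this]; rfl
  rw [h4] at h2
  have h5 : (Wg (lcf c.1 c.2) x y : ℝ) + (if x = y then (q : ℝ) else 0)
      = p * Mg (lcf c.1 c.2) x y + β := by
    have := congrArg (Nat.cast : ℕ → ℝ) h2
    push_cast at this
    exact this
  linarith

end Pool.Agent.H.MP_5e604b_co
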